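import Pool.Agent.Helper54.TP.Poin
import Pool.Agent.Helper54.TP.Period

/-! MP_78efad_nt, row U2: Bessel and Cauchy-Schwarz for a twisted cusp form. -/

open UpperHalfPlane ModularForm EisensteinSeries MeasureTheory Filter
open scoped MatrixGroups Real Nat Topology

namespace Pool.Agent.TPU

open Pool.Agent.Helper54.TP

instance : Fact ((0 : ℝ) < 1) := ⟨one_pos⟩

/-- Bessel for trigonometric polynomials with a sup bound -/
lemma bessel_fin (N : ℕ) (c : ℕ → ℂ) (C : ℝ) (hC : 0 ≤ C)
    (h : ∀ x : ℝ, ‖∑ n ∈ Finset.range N, c n * Complex.exp (2 * π * Complex.I * n * x)‖ ≤ C) :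
    ∑ n ∈ Finset.range N, ‖c n‖ ^ 2 ≤ C ^ 2 := by
  set G : C(AddCircle (1 : ℝ), ℂ) := ∑ n ∈ Finset.range N, c n • fourier (n : ℤ) with hG
  have hGx : ‖G‖ ≤ C := by
    rw [ContinuousMap.norm_le _ hC]
    intro x
    induction x using QuotientAddGroup.induction_on with
    | H x =>
      have h1 : G ((x : ℝ) : AddCircle (1 : ℝ)) =
          ∑ n ∈ Finset.range N, c n * Complex.exp (2 * π * Complex.I * n * x) := by
        rw [hG, ContinuousMap.sum_apply]
        refine Finset.sum_congr rfl fun n _ => ?_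
        rw [ContinuousMap.smul_apply, fourier_coe_apply, smul_eq_mul]
        congr 2
        push_cast
        ring
      have h2 := h x
      rw [← h1] at h2
      exact h2
  set L : C(AddCircle (1 : ℝ), ℂ) →L[ℂ] Lp ℂ 2 (AddCircle.haarAddCircle (T := (1 : ℝ))) :=
    ContinuousMap.toLp 2 AddCircle.haarAddCircle ℂ with hL
  have h1 : L G = ∑ n ∈ Finset.range N, c n • fourierLp 2 (n : ℤ) := by
    rw [hG, map_sum]
    refine Finset.sum_congr rfl fun n _ => ?_
    rw [map_smul]
  have h2 : ‖L G‖ ≤ C := by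
    have h3 : ‖L‖ ≤ 1 := by
      refine (ContinuousMap.toLp_norm_le (AddCircle.haarAddCircle (T := (1 : ℝ)))).trans ?_
      simp [measureUnivNNReal]
    calc ‖L G‖ ≤ ‖L‖ * ‖G‖ := L.le_opNorm G
      _ ≤ 1 * C := mul_le_mul h3 hGx (norm_nonneg _) zero_le_one
      _ = C := one_mul C
  have h3 : ((‖L G‖ ^ 2 : ℝ) : ℂ) = ((∑ n ∈ Finset.range N, ‖c n‖ ^ 2 : ℝ) : ℂ) := by
    have h4 : Orthonormal ℂ (fun n : ℕ => fourierLp (T := (1 : ℝ)) 2 (n : ℤ)) :=
      orthonormal_fourier.comp _ Nat.cast_injective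
    have h5 := h4.inner_sum c c (Finset.range N)
    rw [← h1] at h5
    rw [inner_self_eq_norm_sq_to_K] at h5
    push_cast
    rw [show ((‖L G‖ : ℝ) : ℂ) ^ 2 = _ from h5]
    refine Finset.sum_congr rfl fun n _ => ?_
    rw [mul_comm, Complex.mul_conj, Complex.normSq_eq_norm_sq]
    push_cast
    rfl
  have h4 : ‖L G‖ ^ 2 = ∑ n ∈ Finset.range N, ‖c n‖ ^ 2 := by exact_mod_cast h3
  rw [← h4]
  exact pow_le_pow_left₀ (norm_nonneg _) h2 2

/-- `∑_{1 ≤ n < N} e^{-2 a n} ≤ 1/(2a)` -/
lemma geom_bound (N : ℕ) (a : ℝ) (ha : 0 < a) :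
    ∑ n ∈ Finset.range N, (if n = 0 then 0 else Real.exp (-(a * n)) ^ 2) ≤ (2 * a)⁻¹ := by
  set q : ℝ := Real.exp (-(2 * a)) with hq
  have hq0 : 0 < q := Real.exp_pos _
  have hq1 : q < 1 := by
    rw [hq, Real.exp_lt_one_iff]
    linarith
  have h1 : ∀ n : ℕ, (if n = 0 then 0 else Real.exp (-(a * n)) ^ 2) =
      (if n = 0 then 0 else q ^ n) := by
    intro n
    split_ifs
    · rfl
    · rw [← Real.exp_nat_mul, hq, ← Real.exp_nat_mul]
      congr 1
      push_cast
      ring
  simp only [h1]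
  have h2 : Summable (fun n : ℕ => if n = 0 then 0 else q ^ n) := by
    refine Summable.of_nonneg_of_le (fun n => ?_) (fun n => ?_)
      (summable_geometric_of_lt_one hq0.le hq1)
    · split_ifs
      · exact le_rfl
      · positivity
    · split_ifs
      · positivity
      · exact le_rfl
  have h3 : ∑' n : ℕ, (if n = 0 then 0 else q ^ n) = q / (1 - q) := by
    rw [h2.tsum_eq_zero_add]
    have : ∀ n : ℕ, (if n + 1 = 0 then (0 : ℝ) else q ^ (n + 1)) = q * q ^ n := by
      intro n
      rw [if_neg (by omega), pow_succ]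
      ring
    simp only [this, if_true, zero_add]
    rw [tsum_mul_left, tsum_geometric_of_lt_one hq0.le hq1, div_eq_mul_inv]
  have h4 : ∑ n ∈ Finset.range N, (if n = 0 then 0 else q ^ n) ≤ q / (1 - q) := by
    rw [← h3]
    refine h2.sum_le_tsum _ fun n _ => ?_
    split_ifs
    · exact le_rfl
    · positivity
  refine h4.trans ?_
  rw [div_le_iff₀ (by linarith), inv_mul_eq_div, le_div_iff₀ (by linarith)]
  have h5 := Real.add_one_le_exp (2 * a)
  have h6 : q * Real.exp (2 * a) = 1 := by
    rw [hq, ← Real.exp_add]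
    simp
  nlinarith

/-- U2: Bessel and Cauchy-Schwarz. -/
theorem twist_bound {K : ℤ} {D : ℕ} (ψ : DirichletCharacter ℂ D) (f : CuspForm 𝒮ℒ K)
    (m : ℕ) (hm : 1 ≤ m) (A : ℂ) (v w B : ℝ) (hv : 0 < v) (hvw : v < w)
    (hB : ∀ z : ℍ, z.im = v → ‖f z - A * eF m z‖ ≤ B) :
    ‖twist ψ f (Complex.I * w) - A * ψ (m : ZMod D) * Real.exp (-(2 * π * m * w))‖ ≤
      B * (√(4 * π * (w - v)))⁻¹ := by
  have hB0 : 0 ≤ B := (norm_nonneg _).trans (hB ⟨Complex.I * v, by simpa using hv⟩ (by simp))
  set a : ℕ → ℂ := fun n => (qExpansion 1 (f : ℍ → ℂ)).coeff n with ha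
  set b : ℕ → ℂ := fun n => a n - if n = m then A else 0 with hb
  set c : ℕ → ℂ := fun n => b n * Complex.exp (-(2 * π * n * v)) with hc
  have hb0 : b 0 = 0 := by
    simp only [hb, ha]
    rw [CuspFormClass.qExpansion_coeff_zero f one_pos one_mem_strictPeriods_SL]
    simp
    omega
  have hexpo : ∀ (n : ℕ) (x y : ℝ), Complex.exp (2 * π * Complex.I * n * (x + Complex.I * y)) =
      Complex.exp (-(2 * π * n * y)) * Complex.exp (2 * π * Complex.I * n * x) := by
    intro n x y
    rw [← Complex.exp_add]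
    congr 1
    linear_combination (2 * π * n * (y : ℂ)) * Complex.I_mul_I
  -- the expansion at `x + iy`
  have hexp : ∀ (x y : ℝ) (hy : 0 < y), HasSum (fun n => b n * Complex.exp (-(2 * π * n * y)) *
      Complex.exp (2 * π * Complex.I * n * x))
      (f ⟨x + Complex.I * y, by simpa using hy⟩ -
        A * eF m ⟨x + Complex.I * y, by simpa using hy⟩) := by
    intro x y hy
    have h1 := hasSum_qExpansion f one_pos one_mem_strictPeriods_SL
      ⟨x + Complex.I * y, by simpa using hy⟩
    have h2 : HasSum (fun n : ℕ => (if n = m then A else 0) *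
        Complex.exp (2 * π * Complex.I * n * (x + Complex.I * y)))
        (A * eF m ⟨x + Complex.I * y, by simpa using hy⟩) := by
      have h3 := hasSum_single (f := fun n : ℕ => (if n = m then A else 0) *
        Complex.exp (2 * π * Complex.I * n * (x + Complex.I * y))) m (fun n hn => by simp [hn])
      simpa [eF] using h3
    have h4 := h1.sub h2
    refine Eq.mp (congrArg (fun F : ℕ → ℂ => HasSum F _) (funext fun n => ?_)) h4
    have h5 : Function.Periodic.qParam 1 ((⟨x + Complex.I * y, by simpa using hy⟩ : ℍ) : ℂ) ^ n =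
        Complex.exp (2 * π * Complex.I * n * (x + Complex.I * y)) := by
      rw [Function.Periodic.qParam, ← Complex.exp_nat_mul]
      congr 1
      push_cast
      ring
    rw [h5, hexpo]
    simp only [hb, ha]
    ring
  have hreal : ∀ (n : ℕ) (y : ℝ), ‖Complex.exp (-(2 * π * n * y))‖ = Real.exp (-(2 * π * n * y)) := by
    intro n y
    rw [Complex.norm_exp]
    congr 1
    simp
  have himag : ∀ (n : ℕ) (x : ℝ), ‖Complex.exp (2 * π * Complex.I * n * x)‖ = 1 := by
    intro n x
    rw [Complex.norm_exp]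
    simp
  have hnorm : ∀ y : ℝ, 0 < y → Summable (fun n => ‖b n‖ * Real.exp (-(2 * π * n * y))) := by
    intro y hy
    have h1 := (hexp 0 y hy).summable.norm
    refine h1.congr fun n => ?_
    rw [norm_mul, norm_mul, hreal, himag, mul_one]
  have hcn : Summable (fun n => ‖c n‖) := by
    refine (hnorm v hv).congr fun n => ?_
    rw [hc]
    simp only
    rw [norm_mul, hreal]
  -- finite sums on the line `y = v`
  set ε : ℕ → ℝ := fun N => ∑' n, ‖c (n + N)‖ with hε
  have hε0 : ∀ N, 0 ≤ ε N := fun N => tsum_nonneg fun n => norm_nonneg _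
  have hεlim : Tendsto ε atTop (𝓝 0) := tendsto_sum_nat_add (fun n => ‖c n‖)
  have hfin : ∀ (N : ℕ) (x : ℝ),
      ‖∑ n ∈ Finset.range N, c n * Complex.exp (2 * π * Complex.I * n * x)‖ ≤ B + ε N := by
    intro N x
    have h1 := hexp x v hv
    have h2 : Summable (fun n => c n * Complex.exp (2 * π * Complex.I * n * x)) := h1.summable
    have h3 := h2.sum_add_tsum_nat_add N
    have h4 : ‖∑' n, c n * Complex.exp (2 * π * Complex.I * n * x)‖ ≤ B := by
      have h5 : ∑' n, c n * Complex.exp (2 * π * Complex.I * n * x) = _ := h1.tsum_eq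
      rw [h5]
      exact hB _ (by simp)
    have h5 : ‖∑' n, c (n + N) * Complex.exp (2 * π * Complex.I * (n + N : ℕ) * x)‖ ≤ ε N := by
      refine tsum_of_norm_bounded ((summable_nat_add_iff N).2 hcn).hasSum fun n => ?_
      rw [norm_mul, himag, mul_one]
    have h6 : ∑ n ∈ Finset.range N, c n * Complex.exp (2 * π * Complex.I * n * x) =
        (∑' n, c n * Complex.exp (2 * π * Complex.I * n * x)) -
          ∑' n, c (n + N) * Complex.exp (2 * π * Complex.I * (n + N : ℕ) * x) := by
      rw [← h3]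
      ring
    rw [h6]
    exact (norm_sub_le _ _).trans (add_le_add h4 h5)
  have hbes : ∀ N, ∑ n ∈ Finset.range N, ‖c n‖ ^ 2 ≤ (B + ε N) ^ 2 := fun N =>
    bessel_fin N c (B + ε N) (add_nonneg hB0 (hε0 N)) (hfin N)
  -- Cauchy-Schwarz
  have hw : 0 < w := hv.trans hvw
  have hwv : 0 < w - v := sub_pos.2 hvw
  have hcs : ∀ N, ∑ n ∈ Finset.range N, ‖b n‖ * Real.exp (-(2 * π * n * w)) ≤
      (B + ε N) * (√(4 * π * (w - v)))⁻¹ := by
    intro N
    have h1 : ∀ n : ℕ, ‖b n‖ * Real.exp (-(2 * π * n * w)) =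
        ‖c n‖ * (if n = 0 then 0 else Real.exp (-(2 * π * (w - v) * n))) := by
      intro n
      rcases Nat.eq_zero_or_pos n with h | h
      · subst h
        simp [hb0]
      · rw [if_neg (by omega), hc]
        simp only
        rw [norm_mul, hreal, mul_assoc ‖b n‖, ← Real.exp_add]
        congr 2
        ring
    simp only [h1]
    have h2 := Real.sum_mul_le_sqrt_mul_sqrt (Finset.range N) (fun n => ‖c n‖)
      (fun n => if n = 0 then 0 else Real.exp (-(2 * π * (w - v) * n)))
    refine h2.trans ?_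
    have h3 : √(∑ n ∈ Finset.range N, ‖c n‖ ^ 2) ≤ B + ε N := by
      rw [Real.sqrt_le_left (add_nonneg hB0 (hε0 N))]
      exact hbes N
    have h4 : √(∑ n ∈ Finset.range N,
        (if n = 0 then 0 else Real.exp (-(2 * π * (w - v) * n))) ^ 2) ≤
        (√(4 * π * (w - v)))⁻¹ := by
      rw [← Real.sqrt_inv]
      refine Real.sqrt_le_sqrt ?_
      have h5 := geom_bound N (2 * π * (w - v)) (by positivity)
      have h6 : ∀ n : ℕ, (if n = 0 then (0 : ℝ) else Real.exp (-(2 * π * (w - v) * n))) ^ 2 =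
          (if n = 0 then 0 else Real.exp (-(2 * π * (w - v) * n)) ^ 2) := by
        intro n
        split_ifs <;> simp
      simp only [h6]
      refine h5.trans (le_of_eq ?_)
      congr 1
      ring
    exact mul_le_mul h3 h4 (Real.sqrt_nonneg _) (add_nonneg hB0 (hε0 N))
  have htot : ∑' n, ‖b n‖ * Real.exp (-(2 * π * n * w)) ≤ B * (√(4 * π * (w - v)))⁻¹ := by
    have h1 := (hnorm w hw).hasSum.tendsto_sum_nat
    have h2 : Tendsto (fun N => (B + ε N) * (√(4 * π * (w - v)))⁻¹) atTop
        (𝓝 ((B + 0) * (√(4 * π * (w - v)))⁻¹)) :=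
      (tendsto_const_nhds.add hεlim).mul_const _
    rw [add_zero] at h2
    exact le_of_tendsto_of_tendsto' h1 h2 hcs
  -- the twist
  have htw : HasSum (fun n : ℕ => ψ (n : ZMod D) * a n *
      Complex.exp (2 * π * Complex.I * n * (Complex.I * w))) (twist ψ f (Complex.I * w)) := by
    have h1 : Summable (fun n : ℕ => ψ (n : ZMod D) * a n *
      Complex.exp (2 * π * Complex.I * n * (Complex.I * w))) := by
      have h2 := (hasSum_qExpansion f one_pos one_mem_strictPeriods_SL
        ⟨Complex.I * w, by simpa using hw⟩).summable.norm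
      refine Summable.of_norm_bounded h2 fun n => ?_
      rw [mul_assoc, norm_mul]
      have h3 : Function.Periodic.qParam 1 ((⟨Complex.I * w, by simpa using hw⟩ : ℍ) : ℂ) ^ n =
          Complex.exp (2 * π * Complex.I * n * (Complex.I * w)) := by
        rw [Function.Periodic.qParam, ← Complex.exp_nat_mul]
        congr 1
        push_cast
        ring
      rw [h3]
      exact mul_le_of_le_one_left (norm_nonneg _) (ψ.norm_le_one _)
    exact h1.hasSum
  have hsing : HasSum (fun n : ℕ => ψ (n : ZMod D) * (if n = m then A else 0) *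
      Complex.exp (2 * π * Complex.I * n * (Complex.I * w)))
      (A * ψ (m : ZMod D) * Real.exp (-(2 * π * m * w))) := by
    have h3 := hasSum_single (f := fun n : ℕ => ψ (n : ZMod D) * (if n = m then A else 0) *
      Complex.exp (2 * π * Complex.I * n * (Complex.I * w))) m (fun n hn => by simp [hn])
    convert h3 using 1
    have h4 := hexpo m 0 w
    simp only [Complex.ofReal_zero, zero_add, mul_zero, Complex.exp_zero, mul_one] at h4
    simp only [if_true]
    rw [h4]
    push_cast
    ring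
  have hdiff := htw.sub hsing
  rw [← hdiff.tsum_eq]
  refine (tsum_of_norm_bounded (hnorm w hw).hasSum fun n => ?_).trans htot
  have h4 := hexpo n 0 w
  simp only [Complex.ofReal_zero, zero_add, mul_zero, Complex.exp_zero, mul_one] at h4
  have h5 : ψ (n : ZMod D) * a n * Complex.exp (2 * π * Complex.I * n * (Complex.I * w)) -
      ψ (n : ZMod D) * (if n = m then A else 0) *
      Complex.exp (2 * π * Complex.I * n * (Complex.I * w)) =
      ψ (n : ZMod D) * (b n * Complex.exp (-(2 * π * n * w))) := by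
    rw [h4]
    simp only [hb]
    ring
  rw [h5, norm_mul, norm_mul, hreal]
  exact mul_le_of_le_one_left (by positivity) (ψ.norm_le_one _)

end Pool.Agent.TPU
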