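import Pool.Agent.TPU.Uni59

/-! MP_78efad_nt: two consequences, powers of an integer prime to `D`, and all the nodes up to
`K / 100`. -/

set_option linter.all false

open UpperHalfPlane ModularForm EisensteinSeries MeasureTheory
open scoped MatrixGroups Real Nat

namespace Pool.Agent.TPU

open Pool.Agent.Helper54.TP

lemma phi_prod (N : ℕ) : ∏ i ∈ Finset.range (N + 2), ((1 + (1 / 2 : ℝ) ^ (i + 1)) /
    (1 - (1 / 2 : ℝ) ^ (i + 1))) ≤ 10 * (1 - 2 * (1 / 2 : ℝ) ^ (N + 2)) := by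
  induction N with
  | zero =>
    rw [Finset.prod_range_succ, Finset.prod_range_succ, Finset.prod_range_zero]
    norm_num
  | succ N ih =>
    rw [show N + 1 + 2 = (N + 2) + 1 by ring, Finset.prod_range_succ]
    set y : ℝ := (1 / 2 : ℝ) ^ (N + 2 + 1) with hy
    have hy0 : 0 < y := by positivity
    have hy1 : y ≤ 1 / 8 := by
      rw [hy, show N + 2 + 1 = N + 3 by ring, pow_add]
      have : (1 / 2 : ℝ) ^ N ≤ 1 := pow_le_one₀ (by norm_num) (by norm_num)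
      nlinarith
    have h1 : (1 / 2 : ℝ) ^ (N + 2) = 2 * y := by
      rw [hy, pow_succ (1 / 2 : ℝ) (N + 2)]
      ring
    rw [h1] at ih
    have h2 : (0 : ℝ) < 1 - y := by linarith
    calc _ ≤ 10 * (1 - 2 * (2 * y)) * ((1 + y) / (1 - y)) :=
          mul_le_mul_of_nonneg_right ih (by positivity)
      _ ≤ 10 * (1 - 2 * y) := by
          rw [mul_div_assoc', div_le_iff₀ h2]
          nlinarith

lemma phi_prod' (N : ℕ) : ∏ i ∈ Finset.range N, ((1 + (1 / 2 : ℝ) ^ (i + 1)) /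
    (1 - (1 / 2 : ℝ) ^ (i + 1))) ≤ 10 := by
  rcases N with _ | _ | N
  · simp
  · rw [Finset.prod_range_succ, Finset.prod_range_zero]
    norm_num
  · refine (phi_prod N).trans ?_
    have : 0 < (1 / 2 : ℝ) ^ (N + 2) := by positivity
    linarith

lemma ratio_le (p : ℝ) (hp : 2 ≤ p) (i : ℕ) :
    (p ^ (i + 1) + 1) / (p ^ (i + 1) - 1) ≤
      (1 + (1 / 2 : ℝ) ^ (i + 1)) / (1 - (1 / 2 : ℝ) ^ (i + 1)) := by
  have h1 : (2 : ℝ) ^ (i + 1) ≤ p ^ (i + 1) := pow_le_pow_left₀ (by norm_num) hp _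
  have h2 : (2 : ℝ) ≤ 2 ^ (i + 1) := by
    rw [pow_succ]
    have : (1 : ℝ) ≤ 2 ^ i := one_le_pow₀ (by norm_num)
    linarith
  have h3 : (1 / 2 : ℝ) ^ (i + 1) = (2 ^ (i + 1))⁻¹ := by
    rw [one_div, inv_pow]
  rw [h3]
  set A : ℝ := 2 ^ (i + 1)
  set B : ℝ := p ^ (i + 1)
  have h4 : (1 + A⁻¹) / (1 - A⁻¹) = (A + 1) / (A - 1) := by
    have hA : A ≠ 0 := by linarith
    have hA1 : A - 1 ≠ 0 := by
      have : 0 < A - 1 := by linarith
      exact this.ne'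
    have hA2 : 1 - A⁻¹ ≠ 0 := by
      intro h
      apply hA1
      field_simp at h
      linarith
    field_simp
  rw [h4, div_le_div_iff₀ (by linarith) (by linarith)]
  nlinarith

lemma prod_pow_nodes (p : ℕ) (hp : 2 ≤ p) (n : ℕ) (j : Fin n) :
    ∏ k ∈ Finset.univ.erase j, ((((p ^ (j : ℕ) : ℕ) : ℝ) + ((p ^ (k : ℕ) : ℕ) : ℝ)) /
      |((p ^ (j : ℕ) : ℕ) : ℝ) - ((p ^ (k : ℕ) : ℕ) : ℝ)|) ≤ 100 := by
  classical
  obtain ⟨j, hj⟩ := j
  obtain ⟨M, rfl⟩ : ∃ M, n = j + 1 + M := ⟨n - (j + 1), by omega⟩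
  have hp2 : (2 : ℝ) ≤ p := by exact_mod_cast hp
  have hp0 : (0 : ℝ) < p := by linarith
  have h1 : ∏ k ∈ Finset.univ.erase (⟨j, hj⟩ : Fin (j + 1 + M)),
      ((((p ^ j : ℕ) : ℝ) + ((p ^ (k : ℕ) : ℕ) : ℝ)) /
      |((p ^ j : ℕ) : ℝ) - ((p ^ (k : ℕ) : ℕ) : ℝ)|) =
      ∏ k : Fin (j + 1 + M), (fun k : ℕ => if k = j then (1 : ℝ) else
        ((((p ^ j : ℕ) : ℝ) + ((p ^ k : ℕ) : ℝ)) / |((p ^ j : ℕ) : ℝ) - ((p ^ k : ℕ) : ℝ)|)) k := by
    rw [← Finset.mul_prod_erase Finset.univ _ (Finset.mem_univ (⟨j, hj⟩ : Fin (j + 1 + M)))]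
    simp only [if_true, one_mul]
    refine Finset.prod_congr rfl (fun k hk => ?_)
    have : (k : ℕ) ≠ j := fun h => (Finset.ne_of_mem_erase hk) (Fin.ext h)
    rw [if_neg this]
  rw [h1, Fin.prod_univ_eq_prod_range (fun k : ℕ => if k = j then (1 : ℝ) else
        ((((p ^ j : ℕ) : ℝ) + ((p ^ k : ℕ) : ℝ)) / |((p ^ j : ℕ) : ℝ) - ((p ^ k : ℕ) : ℝ)|)),
    Finset.prod_range_add, Finset.prod_range_succ]
  simp only [if_true, mul_one]
  have hlow : ∏ k ∈ Finset.range j, (if k = j then (1 : ℝ) else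
        ((((p ^ j : ℕ) : ℝ) + ((p ^ k : ℕ) : ℝ)) /
          |((p ^ j : ℕ) : ℝ) - ((p ^ k : ℕ) : ℝ)|)) ≤ 10 := by
    rw [← Finset.prod_range_reflect]
    refine le_trans (Finset.prod_le_prod (fun i hi => ?_) (fun i hi => ?_)) (phi_prod' j)
    · split_ifs
      · norm_num
      · positivity
    · rw [Finset.mem_range] at hi
      rw [if_neg (by omega)]
      refine le_trans (le_of_eq ?_) (ratio_le p hp2 i)
      have e1 : j = (j - 1 - i) + (i + 1) := by omega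
      have e2 : ((p ^ j : ℕ) : ℝ) = (p : ℝ) ^ (j - 1 - i) * (p : ℝ) ^ (i + 1) := by
        rw [← pow_add, ← e1]
        push_cast
        rfl
      have h2 : (1 : ℝ) < (p : ℝ) ^ (i + 1) := one_lt_pow₀ (by linarith) (by omega)
      rw [e2]
      push_cast
      have e3 : (p : ℝ) ^ (j - 1 - i) * (p : ℝ) ^ (i + 1) - (p : ℝ) ^ (j - 1 - i) =
          (p : ℝ) ^ (j - 1 - i) * ((p : ℝ) ^ (i + 1) - 1) := by ring
      have e4 : (p : ℝ) ^ (j - 1 - i) * (p : ℝ) ^ (i + 1) + (p : ℝ) ^ (j - 1 - i) =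
          (p : ℝ) ^ (j - 1 - i) * ((p : ℝ) ^ (i + 1) + 1) := by ring
      have h5 : (0 : ℝ) < (p : ℝ) ^ (j - 1 - i) := by positivity
      rw [e3, e4, abs_of_pos (mul_pos h5 (by linarith)), mul_div_mul_left _ _ h5.ne']
  have hhigh : ∏ x ∈ Finset.range M, (if j + 1 + x = j then (1 : ℝ) else
        ((((p ^ j : ℕ) : ℝ) + ((p ^ (j + 1 + x) : ℕ) : ℝ)) /
          |((p ^ j : ℕ) : ℝ) - ((p ^ (j + 1 + x) : ℕ) : ℝ)|)) ≤ 10 := by
    refine le_trans (Finset.prod_le_prod (fun i hi => ?_) (fun i hi => ?_)) (phi_prod' M)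
    · split_ifs
      · norm_num
      · positivity
    · rw [if_neg (by omega)]
      refine le_trans (le_of_eq ?_) (ratio_le p hp2 i)
      have h2 : (1 : ℝ) < (p : ℝ) ^ (i + 1) := one_lt_pow₀ (by linarith) (by omega)
      push_cast
      have e3 : (p : ℝ) ^ j - (p : ℝ) ^ (j + 1 + i) =
          -((p : ℝ) ^ j * ((p : ℝ) ^ (i + 1) - 1)) := by
        rw [show j + 1 + i = j + (i + 1) by ring, pow_add]
        ring
      have e4 : (p : ℝ) ^ j + (p : ℝ) ^ (j + 1 + i) =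
          (p : ℝ) ^ j * ((p : ℝ) ^ (i + 1) + 1) := by
        rw [show j + 1 + i = j + (i + 1) by ring, pow_add]
        ring
      have h5 : (0 : ℝ) < (p : ℝ) ^ j := by positivity
      rw [e3, e4, abs_neg, abs_of_pos (mul_pos h5 (by linarith)), mul_div_mul_left _ _ h5.ne']
  have h0 : 0 ≤ ∏ x ∈ Finset.range M, (if j + 1 + x = j then (1 : ℝ) else
        ((((p ^ j : ℕ) : ℝ) + ((p ^ (j + 1 + x) : ℕ) : ℝ)) /
          |((p ^ j : ℕ) : ℝ) - ((p ^ (j + 1 + x) : ℕ) : ℝ)|)) := by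
    refine Finset.prod_nonneg fun i _ => ?_
    split_ifs
    · norm_num
    · positivity
  calc _ ≤ (10 : ℝ) * 10 := mul_le_mul hlow hhigh h0 (by norm_num)
    _ = 100 := by norm_num

lemma sum_pow_le (p : ℕ) (hp : 2 ≤ p) (n : ℕ) :
    ∑ j ∈ Finset.range (n + 1), (p : ℝ) ^ j ≤ 2 * (p : ℝ) ^ n := by
  have hp2 : (2 : ℝ) ≤ p := by exact_mod_cast hp
  induction n with
  | zero => simp
  | succ n ih =>
    rw [Finset.sum_range_succ]
    have h1 : (p : ℝ) ^ (n + 1) = p * (p : ℝ) ^ n := by ring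
    have h2 : 0 < (p : ℝ) ^ n := by positivity
    nlinarith

/-- (B): powers of `p`. -/
theorem indep_powers {D : ℕ} (hD : 1 ≤ D) (χ : DirichletCharacter ℂ D) (hχ : χ.IsPrimitive)
    (K n p : ℕ) (hKe : Even K) (hp : 2 ≤ p) (hpD : p.Coprime D) (hn : 1 ≤ n)
    (hK : 10 ^ 9 * p ^ (3 * (n - 1)) ≤ K)
    (ℓ : Fin n → ℕ) (hℓ : StrictMono ℓ) (h3 : ∀ i, 3 ≤ ℓ i) (h4 : ∀ i, 2 * ℓ i + 4 ≤ K) :
    LinearIndependent ℂ
      (fun i : Fin n => (twistedPeriod (ℓ i) χ : CuspForm 𝒮ℒ (K : ℤ) → ℂ)) := by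
  classical
  obtain ⟨n, rfl⟩ : ∃ n', n = n' + 1 := ⟨n - 1, by omega⟩
  simp only [Nat.add_sub_cancel] at hK
  have hp2 : (2 : ℝ) ≤ p := by exact_mod_cast hp
  have hp0 : (0 : ℝ) < p := by linarith
  have hp1 : 1 ≤ p ^ n := Nat.one_le_pow _ _ (by omega)
  have hle : p ^ n ≤ p ^ (3 * n) := Nat.pow_le_pow_right (by omega) (by omega)
  refine main_uniform hD χ hχ K (n + 1) (p ^ n) 0 hKe ?_ (fun j => p ^ (j : ℕ)) ?_ ?_ ?_ ?_ ℓ hℓ h3
    (fun i => by simpa using h4 i) ?_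
  · calc 100 * p ^ n ≤ 10 ^ 9 * p ^ (3 * n) := Nat.mul_le_mul (by norm_num) hle
      _ ≤ K := hK
  · intro a b hab
    exact Fin.ext (Nat.pow_right_injective hp hab)
  · intro j
    exact Nat.one_le_pow _ _ (by omega)
  · intro j
    exact Nat.pow_le_pow_right (by omega) (by omega)
  · intro j
    exact Nat.Coprime.pow_left _ hpD
  · have h1 : ∑ j : Fin (n + 1), ((p ^ (j : ℕ) : ℕ) : ℝ) * ∏ k ∈ Finset.univ.erase j,
        ((((p ^ (j : ℕ) : ℕ) : ℝ) + ((p ^ (k : ℕ) : ℕ) : ℝ)) /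
        |((p ^ (j : ℕ) : ℕ) : ℝ) - ((p ^ (k : ℕ) : ℕ) : ℝ)|) ≤ 200 * (p : ℝ) ^ n := by
      calc _ ≤ ∑ j : Fin (n + 1), ((p ^ (j : ℕ) : ℕ) : ℝ) * 100 :=
            Finset.sum_le_sum fun j _ =>
              mul_le_mul_of_nonneg_left (prod_pow_nodes p hp (n + 1) j) (by positivity)
        _ = (∑ j ∈ Finset.range (n + 1), (p : ℝ) ^ j) * 100 := by
            rw [← Finset.sum_mul, ← Fin.sum_univ_eq_sum_range (fun j => (p : ℝ) ^ j)]
            push_cast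
            rfl
        _ ≤ 2 * (p : ℝ) ^ n * 100 := mul_le_mul_of_nonneg_right (sum_pow_le p hp n) (by norm_num)
        _ = _ := by ring
    simp only [Nat.mul_zero, pow_zero, mul_one]
    have hKr : (10 : ℝ) ^ 9 * (p : ℝ) ^ (3 * n) ≤ K := by exact_mod_cast hK
    have h2 : 0 < √((p ^ n : ℕ) : ℝ) := Real.sqrt_pos.2 (by exact_mod_cast hp1)
    refine lt_of_le_of_lt (mul_le_mul_of_nonneg_right (mul_le_mul_of_nonneg_left h1
      (by norm_num)) h2.le) ?_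
    rw [Real.lt_sqrt (by positivity)]
    have h3' : √((p ^ n : ℕ) : ℝ) ^ 2 = (p : ℝ) ^ n := by
      rw [Real.sq_sqrt (by positivity)]
      push_cast
      rfl
    have h5 : (150 * (200 * (p : ℝ) ^ n) * √((p ^ n : ℕ) : ℝ)) ^ 2 =
        900000000 * (p : ℝ) ^ (3 * n) := by
      rw [mul_pow, h3']
      ring
    rw [h5]
    have : 0 < (p : ℝ) ^ (3 * n) := by positivity
    nlinarith

/-- (C): away from the centre. -/
theorem indep_away {D : ℕ} (hD : 1 ≤ D) (χ : DirichletCharacter ℂ D) (hχ : χ.IsPrimitive)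
    (K n M : ℕ) (hKe : Even K) (hK : 100 * M ≤ K)
    (hcard : n ≤ ((Finset.Icc 1 M).filter (fun m => m.Coprime D)).card)
    (ℓ : Fin n → ℕ) (hℓ : StrictMono ℓ) (h3 : ∀ i, 3 ≤ ℓ i) (h4 : ∀ i, 2 * ℓ i + 4 + 6 * M ≤ K) :
    LinearIndependent ℂ
      (fun i : Fin n => (twistedPeriod (ℓ i) χ : CuspForm 𝒮ℒ (K : ℤ) → ℂ)) := by
  classical
  obtain ⟨T', hT', hc'⟩ := Finset.exists_subset_card_eq hcard
  set x : Fin n → ℕ := fun j => (T'.equivFinOfCardEq hc').symm j with hx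
  have hxT : ∀ j, x j ∈ (Finset.Icc 1 M).filter (fun m => m.Coprime D) :=
    fun j => hT' ((T'.equivFinOfCardEq hc').symm j).2
  have hxinj : Function.Injective x := fun a b hab =>
    (T'.equivFinOfCardEq hc').symm.injective (Subtype.ext hab)
  have hx1 : ∀ j, 1 ≤ x j := fun j => by
    have := hxT j
    rw [Finset.mem_filter, Finset.mem_Icc] at this
    exact this.1.1
  have hxM : ∀ j, x j ≤ M := fun j => by
    have := hxT j
    rw [Finset.mem_filter, Finset.mem_Icc] at this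
    exact this.1.2
  have hxD : ∀ j, (x j).Coprime D := fun j => by
    have := hxT j
    rw [Finset.mem_filter] at this
    exact this.2
  rcases Nat.eq_zero_or_pos n with hn | hn
  · subst hn
    exact linearIndependent_empty_type
  have hM1 : 1 ≤ M := (hx1 ⟨0, hn⟩).trans (hxM ⟨0, hn⟩)
  have hnM : n ≤ M := by
    refine hcard.trans ((Finset.card_filter_le _ _).trans ?_)
    simp
  refine main_uniform hD χ hχ K n M (3 * M) hKe hK x hxinj hx1 hxM hxD ℓ hℓ h3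
    (fun i => by have := h4 i; omega) ?_
  have hMp : (0 : ℝ) < M := by exact_mod_cast hM1
  have hKM : (100 : ℝ) * M ≤ K := by exact_mod_cast hK
  have hKp : (0 : ℝ) < K := by linarith
  have hnMr : (n : ℝ) ≤ M := by exact_mod_cast hnM
  have h1 : ∑ j : Fin n, (x j : ℝ) * ∏ k ∈ Finset.univ.erase j,
        (((x j : ℝ) + x k) / |(x j : ℝ) - x k|) ≤ M ^ 2 * 16 ^ M := by
    calc _ ≤ ∑ j : Fin n, (M : ℝ) * 16 ^ M := by
          refine Finset.sum_le_sum fun j _ => ?_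
          refine mul_le_mul (by exact_mod_cast hxM j)
            (Pool.Agent.TWP.VandA.prod_nodes x hxinj hx1 hxM j) ?_ hMp.le
          exact Finset.prod_nonneg fun k _ => by positivity
      _ = (n : ℝ) * ((M : ℝ) * 16 ^ M) := by
          rw [Finset.sum_const, Finset.card_univ, Fintype.card_fin, nsmul_eq_mul]
      _ ≤ (M : ℝ) * ((M : ℝ) * 16 ^ M) := mul_le_mul_of_nonneg_right hnMr (by positivity)
      _ = _ := by ring
  have h2 : (36 * (M : ℝ) / K) ^ (2 * (3 * M)) ≤ ((1 : ℝ) / 400) ^ M := by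
    have h5 : 36 * (M : ℝ) / K ≤ 0.36 := by
      rw [div_le_iff₀ hKp]
      linarith
    have h6 : 0 ≤ 36 * (M : ℝ) / K := by positivity
    rw [show 2 * (3 * M) = 6 * M by ring, pow_mul]
    apply pow_le_pow_left₀ (by positivity)
    calc (36 * (M : ℝ) / K) ^ 6 ≤ 0.36 ^ 6 := pow_le_pow_left₀ h6 h5 6
      _ ≤ 1 / 400 := by norm_num
  have h7 : (M : ℝ) ≤ 2 ^ (M - 1) := by
    have : M ≤ 2 ^ (M - 1) := by
      obtain ⟨M', hM'⟩ : ∃ M', M = M' + 1 := ⟨M - 1, by omega⟩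
      rw [hM', Nat.add_sub_cancel]
      exact Nat.lt_two_pow_self
    exact_mod_cast this
  have hsM : 0 < √(M : ℝ) := Real.sqrt_pos.2 hMp
  have h8 : 10 * √(M : ℝ) ≤ √(K : ℝ) := by
    apply Real.le_sqrt_of_sq_le
    rw [mul_pow, Real.sq_sqrt hMp.le]
    linarith
  have h9 : 150 * ((M : ℝ) ^ 2 * 16 ^ M) * √(M : ℝ) * ((1 : ℝ) / 400) ^ M < 10 * √(M : ℝ) := by
    have e1 : (16 : ℝ) ^ M * ((1 : ℝ) / 400) ^ M = (1 / 25) ^ M := by
      rw [← mul_pow]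
      norm_num
    have e2 : 150 * ((M : ℝ) ^ 2 * 16 ^ M) * √(M : ℝ) * ((1 : ℝ) / 400) ^ M =
        150 * (M : ℝ) ^ 2 * (1 / 25) ^ M * √(M : ℝ) := by
      rw [← e1]
      ring
    rw [e2]
    refine mul_lt_mul_of_pos_right ?_ hsM
    have e3 : (M : ℝ) ^ 2 ≤ (4 : ℝ) ^ (M - 1) := by
      calc (M : ℝ) ^ 2 ≤ (2 ^ (M - 1)) ^ 2 := pow_le_pow_left₀ hMp.le h7 2
        _ = _ := by rw [← pow_mul, mul_comm, pow_mul]; norm_num
    have e4 : ((1 : ℝ) / 25) ^ M = (1 / 25) ^ (M - 1) * (1 / 25) := by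
      rw [← pow_succ]
      congr 1
      omega
    calc 150 * (M : ℝ) ^ 2 * (1 / 25) ^ M ≤ 150 * (4 : ℝ) ^ (M - 1) * (1 / 25) ^ M := by
          gcongr
      _ = 6 * ((4 : ℝ) ^ (M - 1) * (1 / 25) ^ (M - 1)) := by rw [e4]; ring
      _ = 6 * ((4 : ℝ) / 25) ^ (M - 1) := by
          rw [← mul_pow]
          norm_num
      _ ≤ 6 * 1 := by
          apply mul_le_mul_of_nonneg_left _ (by norm_num)
          exact pow_le_one₀ (by norm_num) (by norm_num)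
      _ < 10 := by norm_num
  have h10 : 0 ≤ (36 * (M : ℝ) / K) ^ (2 * (3 * M)) := by positivity
  calc _ ≤ 150 * ((M : ℝ) ^ 2 * 16 ^ M) * √(M : ℝ) * ((1 : ℝ) / 400) ^ M := by
        gcongr
    _ < 10 * √(M : ℝ) := h9
    _ ≤ √(K : ℝ) := h8

end Pool.Agent.TPU
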