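import Pool.Agent.Helper54.TP.Twist

/-! MP_78efad_nt, row U1: the functional equation of the twisted periods. -/

open UpperHalfPlane ModularForm EisensteinSeries MeasureTheory
open scoped MatrixGroups Real Nat

namespace Pool.Agent.TPU

open Pool.Agent.Helper54.TP

/-- the transformation at the cusp `u/D` -/
theorem cusp_transform {K D : ℕ} (hD : 1 ≤ D) (f : CuspForm 𝒮ℒ (K : ℤ)) (u a b : ℤ)
    (hab : a * (-u) - b * D = 1) {y : ℝ} (hy : 0 < y) :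
    f (pt D u y) = ((Complex.I * D * y) ^ K)⁻¹ * f (pt D a (((D : ℝ) ^ 2 * y)⁻¹)) := by
  have hD0 : (D : ℂ) ≠ 0 := by
    have : D ≠ 0 := by omega
    exact_mod_cast this
  have hy0 : (y : ℂ) ≠ 0 := by exact_mod_cast hy.ne'
  have hDr : (0 : ℝ) < D := by exact_mod_cast hD
  have hy' : 0 < ((D : ℝ) ^ 2 * y)⁻¹ := by positivity
  let γ : SL(2, ℤ) := ⟨!![a, b; (D : ℤ), -u], by rw [Matrix.det_fin_two_of]; linarith⟩
  have h00 : γ 0 0 = a := rfl
  have h01 : γ 0 1 = b := rfl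
  have h10 : γ 1 0 = (D : ℤ) := rfl
  have h11 : γ 1 1 = -u := rfl
  have h1 : (f : ℍ → ℂ) ∣[(K : ℤ)] (γ : GL (Fin 2) ℝ) = f :=
    SlashInvariantForm.slash_action_eqn f _ ⟨γ, rfl⟩
  have h2 := congrFun h1 (pt D u y)
  rw [← SL_slash, SL_slash_apply] at h2
  have hden : denom γ (pt D u y) = Complex.I * D * y := by
    rw [denom]
    simp only [Matrix.SpecialLinearGroup.coe_GL_coe_matrix]
    simp only [Matrix.SpecialLinearGroup.map_apply_coe, RingHom.mapMatrix_apply, Matrix.map_apply,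
      h10, h11, pt_coe D u y hy, eq_intCast]
    push_cast
    field_simp
    ring
  have hnum : γ • pt D u y = pt D a (((D : ℝ) ^ 2 * y)⁻¹) := by
    ext
    rw [coe_specialLinearGroup_apply, h00, h01, h10, h11, pt_coe D u y hy, pt_coe D a _ hy']
    have hab' : (a : ℂ) * (-(u : ℂ)) - b * D = 1 := by exact_mod_cast hab
    have e1 : (((algebraMap ℤ ℝ) (D : ℤ) : ℝ) : ℂ) * ((u : ℂ) / D + Complex.I * y) +
        (((algebraMap ℤ ℝ) (-u) : ℝ) : ℂ) = Complex.I * D * y := by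
      simp only [algebraMap_int_eq, eq_intCast]
      push_cast
      field_simp
      ring
    have e2 : Complex.I * D * y ≠ 0 := mul_ne_zero (mul_ne_zero Complex.I_ne_zero hD0) hy0
    rw [e1, div_eq_iff e2]
    simp only [algebraMap_int_eq, eq_intCast]
    push_cast
    field_simp
    linear_combination (-1 : ℂ) * hab' - (1 : ℂ) * Complex.I_sq
  rw [hden, hnum, zpow_neg, zpow_natCast] at h2
  rw [← h2]
  ring

theorem gs_ne_zero {D : ℕ} (hD : 1 ≤ D) (χ : DirichletCharacter ℂ D) (hχ : χ.IsPrimitive) :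
    gs χ ≠ 0 := by
  intro h0
  have h := gs_norm hD χ hχ
  rw [h0, norm_zero] at h
  have : (0 : ℝ) < Real.sqrt D := Real.sqrt_pos.2 (by exact_mod_cast hD)
  linarith

/-- `χ(-1)` is a sign -/
theorem neg_one_sq {D : ℕ} (χ : DirichletCharacter ℂ D) : χ (-1) * χ (-1) = 1 := by
  rw [← map_mul]
  simp

/-- the functional equation for the twisted form -/
theorem twist_dual {D : ℕ} (hD : 1 ≤ D) (χ : DirichletCharacter ℂ D) (hχ : χ.IsPrimitive)
    (K : ℕ) (f : CuspForm 𝒮ℒ (K : ℤ)) {y : ℝ} (hy : 0 < y) :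
    twist χ f (Complex.I * y) =
      (gs χ)⁻¹ * ((Complex.I * D * y) ^ K)⁻¹ * χ (-1) * gs χ⁻¹ *
        twist χ⁻¹ f (Complex.I * ((((D : ℝ) ^ 2 * y)⁻¹ : ℝ) : ℂ)) := by
  have : NeZero D := ⟨by omega⟩
  have hDr : (0 : ℝ) < D := by exact_mod_cast hD
  have hy' : 0 < ((D : ℝ) ^ 2 * y)⁻¹ := by positivity
  have hχ' := isPrimitive_inv χ hχ
  rw [twist_eq hD χ hχ f y hy, twist_eq hD χ⁻¹ hχ' f _ hy', inv_inv]
  -- the values at the dual cusps as a function on `ZMod D`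
  set w : ℝ := ((D : ℝ) ^ 2 * y)⁻¹ with hw
  set F : ZMod D → ℂ := fun x => f (pt D (x.val : ℤ) w) with hF
  have h1 : ∑ u ∈ Finset.range D, χ⁻¹ (u : ZMod D) * f (pt D u y) =
      ((Complex.I * D * y) ^ K)⁻¹ * ∑ x : ZMod D, χ⁻¹ x * F (-(Ring.inverse x)) := by
    rw [← sum_range_zmod, Finset.mul_sum]
    refine Finset.sum_congr rfl fun u hu => ?_
    by_cases hu' : IsUnit (u : ZMod D)
    · obtain ⟨v, hv⟩ := hu'
      set a : ℤ := ((-(Ring.inverse (u : ZMod D))).val : ℤ) with ha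
      have hmod : ((a * (-(u : ℤ)) - 1 : ℤ) : ZMod D) = 0 := by
        rw [ha]
        push_cast
        rw [ZMod.natCast_zmod_val, ← hv, Ring.inverse_unit]
        have : ((v⁻¹ : (ZMod D)ˣ) : ZMod D) * v = 1 := Units.inv_mul v
        linear_combination this
      obtain ⟨b, hb⟩ := (ZMod.intCast_zmod_eq_zero_iff_dvd _ D).1 hmod
      have hab : a * (-(u : ℤ)) - b * D = 1 := by linarith
      rw [cusp_transform hD f u a b hab hy, hF]
      simp only [← ha]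
      ring
    · rw [MulChar.map_nonunit _ hu', zero_mul, zero_mul, mul_zero]
  have h2 : ∑ x : ZMod D, χ⁻¹ x * F (-(Ring.inverse x)) = χ (-1) * ∑ x : ZMod D, χ x * F x := by
    rw [sum_units, sum_units, Finset.mul_sum]
    refine Fintype.sum_equiv ((Equiv.inv _).trans (Equiv.neg _)) _ _ fun v => ?_
    rw [Ring.inverse_unit]
    simp only [Equiv.trans_apply, Equiv.inv_apply, Equiv.neg_apply, Units.val_neg]
    have h3 : χ (-((v⁻¹ : (ZMod D)ˣ) : ZMod D)) = χ (-1) * χ⁻¹ (v : ZMod D) := by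
      rw [neg_eq_neg_one_mul, map_mul, MulChar.inv_apply, Ring.inverse_unit]
    rw [h3]
    linear_combination (-(χ⁻¹ (v : ZMod D)) * F (-((v⁻¹ : (ZMod D)ˣ) : ZMod D))) * neg_one_sq χ
  have h4 : ∑ x : ZMod D, χ x * F x = ∑ u ∈ Finset.range D, χ (u : ZMod D) * f (pt D u w) := by
    rw [← sum_range_zmod]
    refine Finset.sum_congr rfl fun u hu => ?_
    rw [hF]
    simp only
    rw [ZMod.val_cast_of_lt (Finset.mem_range.1 hu)]
  rw [h1, h2, h4]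
  have hg := gs_ne_zero hD χ⁻¹ hχ'
  field_simp

/-- U1: the functional equation. -/
theorem period_dual {D : ℕ} (hD : 1 ≤ D) (χ : DirichletCharacter ℂ D) (hχ : χ.IsPrimitive)
    (K l : ℕ) (hl : l + 2 ≤ K) : ∃ c : ℂ, c ≠ 0 ∧ ∀ f : CuspForm 𝒮ℒ (K : ℤ),
      twistedPeriod l χ f =
        c * ∫ w in Set.Ioi (0 : ℝ), twist χ⁻¹ f (Complex.I * w) * (w : ℂ) ^ (K - 2 - l) := by
  have hDr : (0 : ℝ) < D := by exact_mod_cast hD
  have hD0 : (D : ℂ) ≠ 0 := by exact_mod_cast hDr.ne'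
  have hχ1 : χ (-1) ≠ 0 := by
    intro h0
    have := neg_one_sq χ
    rw [h0, zero_mul] at this
    exact zero_ne_one this
  refine ⟨(gs χ)⁻¹ * (Complex.I ^ K)⁻¹ * χ (-1) * gs χ⁻¹ * Complex.I ^ (l + 1) *
    (D : ℂ) ^ (K - 2 - l) * (D : ℂ)⁻¹ ^ l, ?_, fun f => ?_⟩
  · have h1 := gs_ne_zero hD χ hχ
    have h2 := gs_ne_zero hD χ⁻¹ (isPrimitive_inv χ hχ)
    have hI := Complex.I_ne_zero
    positivity
  · set T : ℝ → ℂ := fun w => twist χ⁻¹ f (Complex.I * w) with hT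
    set A : ℂ := (gs χ)⁻¹ * (Complex.I ^ K)⁻¹ * χ (-1) * gs χ⁻¹ * Complex.I ^ (l + 1) with hA
    have hDD : (0 : ℝ) < ((D : ℝ) ^ 2)⁻¹ := by positivity
    have hint : ∫ y in Set.Ioi (0 : ℝ), (|(-1 : ℝ)| * y ^ ((-1 : ℝ) - 1)) •
        (fun x : ℝ => T (((D : ℝ) ^ 2)⁻¹ * x) * (((((D : ℝ) ^ 2)⁻¹ * x : ℝ)) : ℂ) ^ (K - 2 - l))
          (y ^ (-1 : ℝ)) =
        (D : ℂ) ^ 2 * ∫ w in Set.Ioi (0 : ℝ), T w * (w : ℂ) ^ (K - 2 - l) := by
      refine (integral_comp_rpow_Ioi (fun x : ℝ => T (((D : ℝ) ^ 2)⁻¹ * x) *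
        (((((D : ℝ) ^ 2)⁻¹ * x : ℝ)) : ℂ) ^ (K - 2 - l)) (p := (-1 : ℝ)) (by norm_num)).trans ?_
      have h := integral_comp_mul_left_Ioi (fun w : ℝ => T w * (w : ℂ) ^ (K - 2 - l)) 0 hDD
      rw [mul_zero] at h
      rw [h, inv_inv, Complex.real_smul]
      push_cast
      rfl
    have hfun : twistedPeriod l χ f = ∫ y in Set.Ioi (0 : ℝ),
        (A * ((D : ℂ) ^ K)⁻¹ * (D : ℂ) ^ (2 * (K - 2 - l))) *
        ((|(-1 : ℝ)| * y ^ ((-1 : ℝ) - 1)) •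
        (fun x : ℝ => T (((D : ℝ) ^ 2)⁻¹ * x) * (((((D : ℝ) ^ 2)⁻¹ * x : ℝ)) : ℂ) ^ (K - 2 - l))
          (y ^ (-1 : ℝ))) := by
      rw [twistedPeriod]
      refine setIntegral_congr_fun measurableSet_Ioi fun y hy => ?_
      have hy0 : (0 : ℝ) < y := hy
      have hyc : (y : ℂ) ≠ 0 := by exact_mod_cast hy0.ne'
      simp only
      rw [twist_dual hD χ hχ K f hy0]
      have e1 : y ^ (-1 : ℝ) = y⁻¹ := Real.rpow_neg_one y
      have e2 : y ^ ((-1 : ℝ) - 1) = (y ^ 2)⁻¹ := by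
        rw [show ((-1 : ℝ) - 1) = -((2 : ℕ) : ℝ) by norm_num, Real.rpow_neg hy0.le,
          Real.rpow_natCast]
      have e3 : ((D : ℝ) ^ 2)⁻¹ * y⁻¹ = ((D : ℝ) ^ 2 * y)⁻¹ := by rw [mul_inv]
      rw [e1, e2, e3, abs_neg, abs_one, one_mul, Complex.real_smul]
      have e4 : (y : ℂ) ^ K = (y : ℂ) ^ 2 * (y : ℂ) ^ (K - 2 - l) * (y : ℂ) ^ l := by
        rw [← pow_add, ← pow_add]
        congr 1
        omega
      have e5 : (Complex.I * D * y) ^ K = Complex.I ^ K * (D : ℂ) ^ K * (y : ℂ) ^ K := by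
        rw [mul_pow, mul_pow]
      rw [e5, e4, hA, hT]
      have hI : Complex.I ^ K ≠ 0 := pow_ne_zero _ Complex.I_ne_zero
      have hyl : (y : ℂ) ^ l ≠ 0 := pow_ne_zero _ hyc
      have hyk : (y : ℂ) ^ (K - 2 - l) ≠ 0 := pow_ne_zero _ hyc
      have hg := gs_ne_zero hD χ hχ
      push_cast
      rw [mul_pow, pow_succ, pow_mul, inv_pow, mul_pow]
      field_simp
      ring
    rw [hfun, integral_const_mul, hint]
    have e6 : (D : ℂ) ^ K = (D : ℂ) ^ 2 * (D : ℂ) ^ (K - 2 - l) * (D : ℂ) ^ l := by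
      rw [← pow_add, ← pow_add]
      congr 1
      omega
    have hDk : (D : ℂ) ^ (K - 2 - l) ≠ 0 := pow_ne_zero _ hD0
    have hDl : (D : ℂ) ^ l ≠ 0 := pow_ne_zero _ hD0
    rw [e6, two_mul, pow_add, inv_pow]
    have e7 : ∫ w in Set.Ioi (0 : ℝ), twist χ⁻¹ f (Complex.I * w) * (w : ℂ) ^ (K - 2 - l) =
      ∫ w in Set.Ioi (0 : ℝ), T w * (w : ℂ) ^ (K - 2 - l) := rfl
    rw [e7]
    field_simp

end Pool.Agent.TPU
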