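import Pool.Agent.TPU.Node59

/-! MP_78efad_nt: the dual integral of a Poincaré series, uniformly in the conductor. -/

set_option linter.all false

open UpperHalfPlane ModularForm EisensteinSeries MeasureTheory Filter Topology
open scoped MatrixGroups Real Nat

namespace Pool.Agent.TPU

open Pool.Agent.Helper54.TP

lemma sqrt_split (K : ℕ) (hK : 0 < K) (w : ℝ) (hw : 0 < w) :
    (√(4 * π * (w / K)))⁻¹ = √(K / (4 * π)) * w ^ (-(1 / 2) : ℝ) := by
  have hKp : (0 : ℝ) < K := by exact_mod_cast hK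
  rw [Real.rpow_neg hw.le, ← Real.sqrt_eq_rpow, ← div_eq_mul_inv, ← Real.sqrt_div' _ hw.le,
    ← Real.sqrt_inv]
  congr 1
  field_simp

lemma w1_facts (K m : ℕ) (hm : 1 ≤ m) (hK : 100 * m ≤ K) :
    0 < (100 * m / K : ℝ) ∧ (100 * m / K : ℝ) ≤ 1 ∧
    √(K / (4 * π)) * √(100 * m / K : ℝ) ≤ 2.83 * √m ∧
    (((100 * m / K : ℝ)) ^ (K / 2))⁻¹ ≤
      0.01 * (K / (4 * π * Real.exp 1 * m)) ^ (K / 2) := by
  have hmp : (0 : ℝ) < m := by exact_mod_cast hm
  have hKp : (0 : ℝ) < K := by exact_mod_cast (by omega : 0 < K)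
  have hKm : (100 : ℝ) * m ≤ K := by exact_mod_cast hK
  have hpi := Real.pi_pos
  refine ⟨by positivity, (div_le_one hKp).2 hKm, ?_, ?_⟩
  · rw [← Real.sqrt_mul (by positivity)]
    have h1 : (K / (4 * π) * (100 * m / K) : ℝ) = 25 / π * m := by
      field_simp
      ring
    rw [h1, Real.sqrt_mul (by positivity)]
    refine mul_le_mul_of_nonneg_right ?_ (by positivity)
    rw [Real.sqrt_le_left (by norm_num), div_le_iff₀ hpi]
    have := Real.pi_gt_d2
    nlinarith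
  · have he : Real.exp 1 < 2.7182818286 := Real.exp_one_lt_d9
    have hp : π < 3.15 := Real.pi_lt_d2
    have he0 := Real.exp_pos 1
    have h1 : (((100 * m / K : ℝ)) ^ (K / 2))⁻¹ = (4 * π * Real.exp 1 / 100) ^ (K / 2) *
        (K / (4 * π * Real.exp 1 * m)) ^ (K / 2) := by
      rw [← mul_pow, ← inv_pow]
      congr 1
      field_simp
    rw [h1]
    refine mul_le_mul_of_nonneg_right ?_ (by positivity)
    have h2 : 4 * π * Real.exp 1 / 100 ≤ 0.35 := by
      rw [div_le_iff₀ (by norm_num)]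
      nlinarith
    have h3 : 5 ≤ K / 2 := by omega
    calc (4 * π * Real.exp 1 / 100) ^ (K / 2) ≤ 0.35 ^ (K / 2) :=
          pow_le_pow_left₀ (by positivity) h2 _
      _ ≤ 0.35 ^ 5 := pow_le_pow_of_le_one (by norm_num) (by norm_num) h3
      _ ≤ 0.01 := by norm_num

theorem dual_node {D : ℕ} (ψ : DirichletCharacter ℂ D) (K m r : ℕ) (hKe : Even K) (hm : 1 ≤ m)
    (hK : 100 * m ≤ K) (hr : 2 * r + 10 ≤ K) (P : CuspForm 𝒮ℒ (K : ℤ))
    (hP : ∀ z : ℍ, HasSum (fun v : gammaSet 1 1 0 => pterm K m v z) (P z)) :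
    ‖(∫ w in Set.Ioi (0 : ℝ), twist ψ P (Complex.I * w) * (w : ℂ) ^ (K / 2 + r)) -
      2 * ψ (m : ZMod D) * (((K / 2 + r)! : ℂ) / (2 * π * m) ^ (K / 2 + r + 1))‖ ≤
      70 * √m * (K / (4 * π * Real.exp 1 * m)) ^ (K / 2) * (100 * m / K) ^ r := by
  have hmp : (0 : ℝ) < m := by exact_mod_cast hm
  have hK0 : 0 < K := by omega
  have hKp : (0 : ℝ) < K := by exact_mod_cast hK0
  have hpi := Real.pi_pos
  obtain ⟨hw0, hw1, hsw, hpw⟩ := w1_facts K m hm hK
  set W : ℝ := 100 * m / K with hW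
  set H : ℝ := (K / (4 * π * Real.exp 1 * m)) ^ (K / 2) with hH
  have hH0 : 0 < H := by positivity
  set s : ℝ := √(K / (4 * π)) with hs
  have hs0 : 0 < s := Real.sqrt_pos.2 (by positivity)
  set t : ℕ := K / 2 + r with ht
  have hKK : K = K / 2 + K / 2 := by
    obtain ⟨k, hk⟩ := hKe
    omega
  -- the main term
  obtain ⟨hmi, hmv⟩ := integral_main1 t (2 * π * m) (by positivity)
  -- measurability
  have hmeas : AEStronglyMeasurable (fun w : ℝ => dif ψ m P w * (w : ℂ) ^ t)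
      (volume.restrict (Set.Ioi (0 : ℝ))) := by
    refine AEStronglyMeasurable.mul ?_ (Continuous.aestronglyMeasurable (by fun_prop))
    unfold dif
    exact (twist_aesm ψ P).sub (Continuous.aestronglyMeasurable (by fun_prop))
  -- the small part
  have hg1i : IntegrableOn (fun w : ℝ => 10 * H * s * w ^ ((r : ℝ) - 1 / 2)) (Set.Ioc 0 W) := by
    refine Integrable.const_mul ?_ _
    exact (intervalIntegrable_iff_integrableOn_Ioc_of_le hw0.le).1
      (intervalIntegral.intervalIntegrable_rpow' (by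
        have : (0 : ℝ) ≤ r := Nat.cast_nonneg r
        linarith))
  have hg1v : ∫ w in Set.Ioc 0 W, 10 * H * s * w ^ ((r : ℝ) - 1 / 2) ≤
      20 * H * (s * √W) * W ^ r := by
    rw [integral_const_mul, ← intervalIntegral.integral_of_le hw0.le, integral_rpow (by
      left
      have : (0 : ℝ) ≤ r := Nat.cast_nonneg r
      linarith)]
    have hr0 : (0 : ℝ) ≤ r := Nat.cast_nonneg r
    rw [Real.zero_rpow (show (r : ℝ) - 1 / 2 + 1 ≠ 0 by
      have : (0 : ℝ) < (r : ℝ) - 1 / 2 + 1 := by linarith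
      exact this.ne'), sub_zero]
    have h1 : W ^ ((r : ℝ) - 1 / 2 + 1) = W ^ r * √W := by
      rw [show (r : ℝ) - 1 / 2 + 1 = (r : ℝ) + 1 / 2 by ring, Real.rpow_add hw0,
        Real.rpow_natCast, ← Real.sqrt_eq_rpow]
    rw [h1]
    have h2 : W ^ r * √W / ((r : ℝ) - 1 / 2 + 1) ≤ 2 * (W ^ r * √W) := by
      rw [div_le_iff₀ (by linarith)]
      have : 0 ≤ W ^ r * √W := by positivity
      nlinarith
    calc 10 * H * s * (W ^ r * √W / ((r : ℝ) - 1 / 2 + 1))
        ≤ 10 * H * s * (2 * (W ^ r * √W)) := mul_le_mul_of_nonneg_left h2 (by positivity)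
      _ = _ := by ring
  have hb1 : ∀ w ∈ Set.Ioc 0 W, ‖dif ψ m P w * (w : ℂ) ^ t‖ ≤
      10 * H * s * w ^ ((r : ℝ) - 1 / 2) := by
    intro w hw
    have hwp : 0 < w := hw.1
    have h1 := dif_small ψ K m hKe hm hK P hP w hwp
    rw [sqrt_split K hK0 w hwp] at h1
    rw [norm_mul, norm_pow, Complex.norm_real, Real.norm_of_nonneg hwp.le]
    refine (mul_le_mul_of_nonneg_right h1 (by positivity)).trans (le_of_eq ?_)
    rw [← hH, ← hs, ht, pow_add, sub_eq_add_neg, Real.rpow_add hwp, Real.rpow_natCast]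
    field_simp
  -- the large part
  set a : ℝ := -((K / 2 : ℕ) : ℝ) + r - 1 / 2 with ha
  set b : ℝ := -((K / 2 : ℕ) : ℝ) + r + 3 / 2 with hb
  have hrK : (r : ℝ) + 5 ≤ ((K / 2 : ℕ) : ℝ) := by exact_mod_cast (by omega : r + 5 ≤ K / 2)
  have ha1 : a < -1 := by rw [ha]; linarith
  have hb1' : b < -1 := by rw [hb]; linarith
  have hg2i : IntegrableOn (fun w : ℝ => 48 * s * (w ^ a + w ^ b)) (Set.Ioi W) := by
    refine Integrable.const_mul ?_ _
    exact (integrableOn_Ioi_rpow_of_lt ha1 hw0).add (integrableOn_Ioi_rpow_of_lt hb1' hw0)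
  have hWa : W ^ (a + 1) = W ^ r * √W * (W ^ (K / 2))⁻¹ := by
    rw [show a + 1 = (r : ℝ) + 1 / 2 + -((K / 2 : ℕ) : ℝ) by rw [ha]; ring,
      Real.rpow_add hw0, Real.rpow_add hw0, Real.rpow_natCast, ← Real.sqrt_eq_rpow,
      Real.rpow_neg hw0.le, Real.rpow_natCast]
  have hWb : W ^ (b + 1) ≤ W ^ (a + 1) := by
    apply Real.rpow_le_rpow_of_exponent_ge hw0 hw1
    rw [ha, hb]
    linarith
  have hg2v : ∫ w in Set.Ioi W, 48 * s * (w ^ a + w ^ b) ≤
      30 * (s * √W) * W ^ r * (W ^ (K / 2))⁻¹ := by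
    rw [integral_const_mul, integral_add (integrableOn_Ioi_rpow_of_lt ha1 hw0)
      (integrableOn_Ioi_rpow_of_lt hb1' hw0), integral_Ioi_rpow_of_lt ha1 hw0,
      integral_Ioi_rpow_of_lt hb1' hw0]
    have hWa0 : 0 < W ^ (a + 1) := Real.rpow_pos_of_pos hw0 _
    have h1 : -W ^ (a + 1) / (a + 1) ≤ W ^ (a + 1) * (2 / 9) := by
      rw [neg_div, ← div_neg, div_le_iff₀ (by rw [ha]; linarith)]
      have : (9 : ℝ) / 2 ≤ -(a + 1) := by rw [ha]; linarith
      nlinarith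
    have h2 : -W ^ (b + 1) / (b + 1) ≤ W ^ (a + 1) * (2 / 5) := by
      rw [neg_div, ← div_neg, div_le_iff₀ (by rw [hb]; linarith)]
      have : (5 : ℝ) / 2 ≤ -(b + 1) := by rw [hb]; linarith
      nlinarith
    have h3 : -W ^ (a + 1) / (a + 1) + -W ^ (b + 1) / (b + 1) ≤ W ^ (a + 1) * (28 / 45) := by
      linarith
    calc 48 * s * (-W ^ (a + 1) / (a + 1) + -W ^ (b + 1) / (b + 1))
        ≤ 48 * s * (W ^ (a + 1) * (28 / 45)) := mul_le_mul_of_nonneg_left h3 (by positivity)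
      _ ≤ 30 * s * W ^ (a + 1) := by
          have : 0 < s * W ^ (a + 1) := by positivity
          nlinarith
      _ = _ := by rw [hWa]; ring
  have hb2 : ∀ w ∈ Set.Ioi W, ‖dif ψ m P w * (w : ℂ) ^ t‖ ≤ 48 * s * (w ^ a + w ^ b) := by
    intro w hw
    have hwp : 0 < w := lt_trans hw0 hw
    have h1 := dif_large ψ K m hKe hm (by omega) P hP w hwp
    rw [sqrt_split K hK0 w hwp] at h1
    rw [norm_mul, norm_pow, Complex.norm_real, Real.norm_of_nonneg hwp.le]
    refine (mul_le_mul_of_nonneg_right h1 (by positivity)).trans (le_of_eq ?_)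
    rw [← hs]
    have e1 : w ^ a = w ^ r * (w ^ (K / 2))⁻¹ * w ^ (-(1 / 2) : ℝ) := by
      rw [show a = (r : ℝ) + -((K / 2 : ℕ) : ℝ) + (-(1 / 2)) by rw [ha]; ring,
        Real.rpow_add hwp, Real.rpow_add hwp, Real.rpow_natCast, Real.rpow_neg hwp.le,
        Real.rpow_natCast]
    have e2 : w ^ b = w ^ 2 * (w ^ r * (w ^ (K / 2))⁻¹ * w ^ (-(1 / 2) : ℝ)) := by
      rw [← e1, show b = ((2 : ℕ) : ℝ) + a by rw [ha, hb]; push_cast; ring, Real.rpow_add hwp,
        Real.rpow_natCast]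
    have e3 : w ^ K = w ^ (K / 2) * w ^ (K / 2) := by rw [← pow_add, ← hKK]
    have e4 : w ^ K = w ^ (K - 2) * w ^ 2 := by
      rw [← pow_add]
      congr 1
      omega
    have e5 : (w ^ (K - 2))⁻¹ = w ^ 2 * (w ^ K)⁻¹ := by
      rw [e4]
      field_simp
    rw [e1, e2, e5, e3, ht, pow_add]
    field_simp
  -- integrability
  have hun : Set.Ioi (0 : ℝ) = Set.Ioc 0 W ∪ Set.Ioi W := (Set.Ioc_union_Ioi_eq_Ioi hw0.le).symm
  have hi1 : IntegrableOn (fun w : ℝ => dif ψ m P w * (w : ℂ) ^ t) (Set.Ioc 0 W) := by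
    refine Integrable.mono' hg1i (hmeas.mono_set Set.Ioc_subset_Ioi_self) ?_
    rw [ae_restrict_iff' measurableSet_Ioc]
    exact Filter.Eventually.of_forall hb1
  have hi2 : IntegrableOn (fun w : ℝ => dif ψ m P w * (w : ℂ) ^ t) (Set.Ioi W) := by
    refine Integrable.mono' hg2i (hmeas.mono_set (Set.Ioi_subset_Ioi hw0.le)) ?_
    rw [ae_restrict_iff' measurableSet_Ioi]
    exact Filter.Eventually.of_forall hb2
  have hi : IntegrableOn (fun w : ℝ => dif ψ m P w * (w : ℂ) ^ t) (Set.Ioi 0) := by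
    rw [hun]
    exact hi1.union hi2
  -- the splitting
  have hmain : IntegrableOn (fun w : ℝ => 2 * ψ (m : ZMod D) *
      ((Real.exp (-(2 * π * m * w)) * w ^ t : ℝ) : ℂ)) (Set.Ioi 0) :=
    (Integrable.ofReal hmi).const_mul _
  have hmainv : ∫ w in Set.Ioi (0 : ℝ), 2 * ψ (m : ZMod D) *
      ((Real.exp (-(2 * π * m * w)) * w ^ t : ℝ) : ℂ) =
      2 * ψ (m : ZMod D) * ((t ! : ℂ) / (2 * π * m) ^ (t + 1)) := by
    rw [integral_const_mul, integral_complex_ofReal, hmv]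
    push_cast
    ring
  have hsplit : (∫ w in Set.Ioi (0 : ℝ), twist ψ P (Complex.I * w) * (w : ℂ) ^ t) =
      (∫ w in Set.Ioi (0 : ℝ), dif ψ m P w * (w : ℂ) ^ t) +
      2 * ψ (m : ZMod D) * ((t ! : ℂ) / (2 * π * m) ^ (t + 1)) := by
    rw [← hmainv, ← integral_add hi hmain]
    refine setIntegral_congr_fun measurableSet_Ioi fun w _ => ?_
    simp only [dif]
    push_cast
    ring
  rw [hsplit, add_sub_cancel_right, hun, setIntegral_union (by
    rw [Set.disjoint_left]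
    intro x hx hx'
    exact absurd hx' (not_lt.2 hx.2)) measurableSet_Ioi hi1 hi2]
  have hn1 : ‖∫ w in Set.Ioc 0 W, dif ψ m P w * (w : ℂ) ^ t‖ ≤ 20 * H * (s * √W) * W ^ r :=
    (norm_integral_le_of_norm_le hg1i (by
      rw [ae_restrict_iff' measurableSet_Ioc]
      exact Filter.Eventually.of_forall hb1)).trans hg1v
  have hn2 : ‖∫ w in Set.Ioi W, dif ψ m P w * (w : ℂ) ^ t‖ ≤
      30 * (s * √W) * W ^ r * (W ^ (K / 2))⁻¹ :=
    (norm_integral_le_of_norm_le hg2i (by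
      rw [ae_restrict_iff' measurableSet_Ioi]
      exact Filter.Eventually.of_forall hb2)).trans hg2v
  refine (norm_add_le _ _).trans ((add_le_add hn1 hn2).trans ?_)
  have hsW : 0 < s * √W := mul_pos hs0 (Real.sqrt_pos.2 hw0)
  have hWr : 0 < W ^ r := pow_pos hw0 r
  calc 20 * H * (s * √W) * W ^ r + 30 * (s * √W) * W ^ r * (W ^ (K / 2))⁻¹
      ≤ 20 * H * (s * √W) * W ^ r + 30 * (s * √W) * W ^ r * (0.01 * H) :=
        add_le_add le_rfl (mul_le_mul_of_nonneg_left hpw (by positivity))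
    _ = 20.3 * (H * W ^ r) * (s * √W) := by ring
    _ ≤ 20.3 * (H * W ^ r) * (2.83 * √m) :=
        mul_le_mul_of_nonneg_left hsw (by positivity)
    _ ≤ 70 * √m * H * W ^ r := by
        have : 0 ≤ H * W ^ r * √m := by positivity
        nlinarith

end Pool.Agent.TPU
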