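import Pool.Agent.Helper54.TP.Poin
import Pool.Agent.Helper54.TP.Ints
import Pool.Agent.Helper54.TP.Period

/-! MP_78efad_nt, rows U3a, U3b: the terms `c ≠ 0` of the Poincaré series and the sup bound. -/

open UpperHalfPlane ModularForm EisensteinSeries MeasureTheory
open scoped MatrixGroups Real Nat Modular

namespace Pool.Agent.TPU

open Pool.Agent.Helper54.TP

/-- the comparison function in the second variable -/
noncomputable def uu (A B : ℝ) (e : ℤ) : ℝ :=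
  if e = 0 ∨ e = -1 then A else B * (if 1 ≤ e then 1 / (e : ℝ) ^ 2 else 1 / ((e : ℝ) + 1) ^ 2)

lemma uu_nonneg {A B : ℝ} (hA : 0 ≤ A) (hB : 0 ≤ B) (e : ℤ) : 0 ≤ uu A B e := by
  unfold uu
  split_ifs
  · exact hA
  · positivity
  · positivity

lemma hasSum_uu (A B : ℝ) : HasSum (uu A B) (2 * A + B * (π ^ 2 / 3)) := by
  have h0 : HasSum (fun n : ℕ => 1 / (n : ℝ) ^ 2) (π ^ 2 / 6) := hasSum_zeta_two
  have h1 : HasSum (fun n : ℕ => (if n = 0 then A else 0) + B * (1 / (n : ℝ) ^ 2))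
      (A + B * (π ^ 2 / 6)) := (hasSum_ite_eq (0 : ℕ) A).add (h0.mul_left B)
  have h2 : (fun n : ℕ => uu A B (n : ℤ)) =
      fun n : ℕ => (if n = 0 then A else 0) + B * (1 / (n : ℝ) ^ 2) := by
    funext n
    rcases Nat.eq_zero_or_pos n with h | h
    · subst h
      simp [uu]
    · have h3 : ¬ ((n : ℤ) = 0 ∨ (n : ℤ) = -1) := by omega
      have h4 : (1 : ℤ) ≤ n := by omega
      have h5 : n ≠ 0 := by omega
      simp only [uu, if_neg h3, if_pos h4, if_neg h5]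
      push_cast
      ring
  have h3 : (fun n : ℕ => uu A B (-((n : ℤ) + 1))) =
      fun n : ℕ => (if n = 0 then A else 0) + B * (1 / (n : ℝ) ^ 2) := by
    funext n
    rcases Nat.eq_zero_or_pos n with h | h
    · subst h
      simp [uu]
    · have h3 : ¬ (-((n : ℤ) + 1) = 0 ∨ -((n : ℤ) + 1) = -1) := by omega
      have h4 : ¬ ((1 : ℤ) ≤ -((n : ℤ) + 1)) := by omega
      have h5 : n ≠ 0 := by omega
      simp only [uu, if_neg h3, if_neg h4, if_neg h5]
      push_cast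
      have : (-((n : ℝ) + 1) + 1) ^ 2 = (n : ℝ) ^ 2 := by ring
      rw [this]
      ring
  have h4 := HasSum.of_nat_of_neg_add_one (f := uu A B) (h2 ▸ h1) (h3 ▸ h1)
  convert h4 using 1
  ring

/-- one term -/
lemma term_bound (k : ℕ) (hk : 2 ≤ k) (c d : ℤ) (hc : c ≠ 0) (z : ℍ) :
    ((‖(c : ℂ) * z + d‖ ^ 2) ^ k)⁻¹ ≤
      (1 / (c : ℝ) ^ 2) * uu ((z.im ^ (2 * k))⁻¹) ((z.im ^ (2 * k - 2))⁻¹) (d + ⌊(c : ℝ) * z.re⌋) := by
  have hy : 0 < z.im := z.im_pos
  set t : ℝ := (c : ℝ) * z.re + d with ht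
  have hN : ‖(c : ℂ) * z + d‖ ^ 2 = t ^ 2 + (c : ℝ) ^ 2 * z.im ^ 2 := by
    rw [Complex.sq_norm, Complex.normSq_apply]
    simp [ht]
    ring
  rw [hN]
  have hc1 : (1 : ℝ) ≤ (c : ℝ) ^ 2 := by
    have : (1 : ℤ) ≤ c ^ 2 := by
      have := Int.one_le_abs hc
      nlinarith [sq_abs c]
    exact_mod_cast this
  set e : ℤ := d + ⌊(c : ℝ) * z.re⌋ with he
  have hte1 : (e : ℝ) ≤ t := by
    have := Int.floor_le ((c : ℝ) * z.re)
    simp only [he, ht]
    push_cast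
    linarith
  have hte2 : t < e + 1 := by
    have := Int.lt_floor_add_one ((c : ℝ) * z.re)
    simp only [he, ht]
    push_cast
    linarith
  by_cases h : e = 0 ∨ e = -1
  · rw [uu, if_pos h, one_div, ← mul_inv]
    apply inv_anti₀ (by positivity)
    calc (c : ℝ) ^ 2 * z.im ^ (2 * k) ≤ ((c : ℝ) ^ 2) ^ k * z.im ^ (2 * k) := by
          refine mul_le_mul_of_nonneg_right ?_ (by positivity)
          calc (c : ℝ) ^ 2 = ((c : ℝ) ^ 2) ^ 1 := (pow_one _).symm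
            _ ≤ ((c : ℝ) ^ 2) ^ k := pow_le_pow_right₀ hc1 (by omega)
      _ = ((c : ℝ) ^ 2 * z.im ^ 2) ^ k := by rw [mul_pow, pow_mul z.im]
      _ ≤ (t ^ 2 + (c : ℝ) ^ 2 * z.im ^ 2) ^ k := by
          refine pow_le_pow_left₀ (by positivity) ?_ _
          nlinarith [sq_nonneg t]
  · rw [uu, if_neg h]
    -- lower bound for `t ^ 2`
    have hT : ∃ T : ℝ, 0 < T ∧ T ≤ t ^ 2 ∧
        (if 1 ≤ e then 1 / (e : ℝ) ^ 2 else 1 / ((e : ℝ) + 1) ^ 2) = T⁻¹ := by
      by_cases h1 : 1 ≤ e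
      · have h2 : (1 : ℝ) ≤ e := by exact_mod_cast h1
        refine ⟨(e : ℝ) ^ 2, by positivity, ?_, by rw [if_pos h1, one_div]⟩
        exact pow_le_pow_left₀ (by linarith) hte1 2
      · have h2 : e ≤ -2 := by
          push Not at h
          omega
        have h3 : (e : ℝ) ≤ -2 := by exact_mod_cast h2
        refine ⟨((e : ℝ) + 1) ^ 2, ?_, ?_, by rw [if_neg h1, one_div]⟩
        · have : (e : ℝ) + 1 ≠ 0 := by linarith
          positivity
        · nlinarith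
    obtain ⟨T, hT0, hT1, hT2⟩ := hT
    rw [hT2, one_div, ← mul_inv, ← mul_inv]
    apply inv_anti₀ (by positivity)
    obtain ⟨j, rfl⟩ : ∃ j, k = j + 1 := ⟨k - 1, by omega⟩
    have hj : 1 ≤ j := by omega
    have e1 : 2 * (j + 1) - 2 = 2 * j := by omega
    rw [e1]
    calc (c : ℝ) ^ 2 * (z.im ^ (2 * j) * T)
        ≤ ((c : ℝ) ^ 2) ^ j * (z.im ^ (2 * j) * T) := by
          refine mul_le_mul_of_nonneg_right ?_ (by positivity)
          calc (c : ℝ) ^ 2 = ((c : ℝ) ^ 2) ^ 1 := (pow_one _).symm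
            _ ≤ ((c : ℝ) ^ 2) ^ j := pow_le_pow_right₀ hc1 hj
      _ = ((c : ℝ) ^ 2 * z.im ^ 2) ^ j * T := by
          rw [mul_pow, pow_mul z.im]
          ring
      _ ≤ (t ^ 2 + (c : ℝ) ^ 2 * z.im ^ 2) ^ j * (t ^ 2 + (c : ℝ) ^ 2 * z.im ^ 2) := by
          refine mul_le_mul ?_ ?_ hT0.le (by positivity)
          · refine pow_le_pow_left₀ (by positivity) ?_ _
            nlinarith [sq_nonneg t]
          · have : 0 ≤ (c : ℝ) ^ 2 * z.im ^ 2 := by positivity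
            linarith
      _ = _ := (pow_succ _ _).symm

/-- U3a: the terms with `c ≠ 0`. -/
theorem tail_bound (K m : ℕ) (hKe : Even K) (hK : 4 ≤ K) (P : CuspForm 𝒮ℒ (K : ℤ))
    (hP : ∀ z : ℍ, HasSum (fun v : gammaSet 1 1 0 => pterm K m v z) (P z)) (z : ℍ) :
    ‖P z - 2 * eF m z‖ ≤ 12 * ((z.im ^ K)⁻¹ + (z.im ^ (K - 2))⁻¹) := by
  have hy : 0 < z.im := z.im_pos
  obtain ⟨k, hk⟩ := hKe
  have hk2 : K = 2 * k := by omega
  set v1 : gammaSet 1 1 0 := ⟨![0, 1], mem_gs 0 1 isCoprime_one_right⟩ with hv1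
  set v2 : gammaSet 1 1 0 := ⟨-![0, 1], by
    have := mem_gs 0 (-1) (isCoprime_zero_left.2 (by decide))
    simpa using this⟩ with hv2
  have h12 : v1 ≠ v2 := by
    intro h
    have := congrFun (congrArg Subtype.val h) 1
    simp [hv1, hv2] at this
  set T : Finset (gammaSet 1 1 0) := {v1, v2} with hT
  have E1 : pterm K m v1 z = eF m z := by
    have h1 : (1 : SL(2, ℤ)) 1 = v1.1 := by
      rw [hv1]
      ext i
      fin_cases i <;> simp
    rw [pterm_eq K m v1 1 h1, one_smul]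
    simp [hv1]
  have E2 : pterm K m v2 z = eF m z := by
    rw [pterm_neg K ⟨k, hk⟩ m v1 v2 rfl, E1]
  have hnotT : ∀ v : gammaSet 1 1 0, v ∉ T → v.1 0 ≠ 0 := by
    intro v hv hc
    apply hv
    have hcop : IsCoprime (v.1 0) (v.1 1) := (mem_gammaSet_one v.1).1 v.2
    rw [hc, isCoprime_zero_left, Int.isUnit_iff] at hcop
    rcases hcop with h1 | h1
    · have : v = v1 := by
        apply Subtype.ext
        ext i
        fin_cases i
        · simpa [hv1] using hc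
        · simpa [hv1] using h1
      simp [hT, this]
    · have : v = v2 := by
        apply Subtype.ext
        ext i
        fin_cases i
        · simpa [hv2] using hc
        · simpa [hv2] using h1
      simp [hT, this]
  have hfin : HasSum (fun v : gammaSet 1 1 0 => if v ∈ T then pterm K m v z else 0)
      (2 * eF m z) := by
    have h1 : HasSum (fun v : gammaSet 1 1 0 => if v ∈ T then pterm K m v z else 0)
        (∑ v ∈ T, (if v ∈ T then pterm K m v z else 0)) :=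
      hasSum_sum_of_ne_finset_zero (fun v hv => by simp [hv])
    have h2 : ∑ v ∈ T, (if v ∈ T then pterm K m v z else 0) = 2 * eF m z := by
      rw [Finset.sum_congr rfl (fun v hv => if_pos hv), hT, Finset.sum_insert (by simp [h12]),
        Finset.sum_singleton, E1, E2]
      ring
    rwa [h2] at h1
  have hdiff := (hP z).sub hfin
  set A : ℝ := (z.im ^ (2 * k))⁻¹ with hA
  set B : ℝ := (z.im ^ (2 * k - 2))⁻¹ with hB
  have hA0 : 0 ≤ A := by positivity
  have hB0 : 0 ≤ B := by positivity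
  set h : ℤ → ℝ := fun c => 1 / (c : ℝ) ^ 2 with hh
  have hnn : ∀ c, 0 ≤ h c := fun c => by rw [hh]; positivity
  have hs : Summable h := hasSum_int_sq.summable
  have hu := hasSum_uu A B
  have hss : Summable (fun x : ℤ × ℤ => h x.1 * uu A B x.2) :=
    hs.mul_of_nonneg hu.summable hnn (uu_nonneg hA0 hB0)
  have htt : ∑' x : ℤ × ℤ, h x.1 * uu A B x.2 = (π ^ 2 / 3) * (2 * A + B * (π ^ 2 / 3)) := by
    have := hs.tsum_mul_tsum hu.summable hss
    rw [hasSum_int_sq.tsum_eq, hu.tsum_eq] at this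
    exact this.symm
  set i : gammaSet 1 1 0 → ℤ × ℤ := fun v => (v.1 0, v.1 1 + ⌊(v.1 0 : ℝ) * z.re⌋) with hi
  have hinj : Function.Injective i := by
    intro v w hvw
    simp only [hi, Prod.mk.injEq] at hvw
    obtain ⟨h0, h1⟩ := hvw
    have h2 : v.1 1 = w.1 1 := by
      rw [h0] at h1
      linarith
    apply Subtype.ext
    funext j
    fin_cases j
    · exact h0
    · exact h2
  have hsc : Summable ((fun x : ℤ × ℤ => h x.1 * uu A B x.2) ∘ i) := hss.comp_injective hinj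
  have hb : ∀ v : gammaSet 1 1 0,
      ‖pterm K m v z - (if v ∈ T then pterm K m v z else 0)‖ ≤
        ((fun x : ℤ × ℤ => h x.1 * uu A B x.2) ∘ i) v := by
    intro v
    by_cases hvT : v ∈ T
    · simp only [hvT, if_true, sub_self, norm_zero, Function.comp_apply]
      exact mul_nonneg (hnn _) (uu_nonneg hA0 hB0 _)
    · simp only [hvT, if_false, sub_zero, Function.comp_apply]
      refine (norm_pterm_le K m v z).trans ?_
      have h3 := term_bound k (by omega) (v.1 0) (v.1 1) (hnotT v hvT) z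
      rw [zpow_neg, zpow_natCast, hk2, pow_mul]
      exact h3
  rw [← hdiff.tsum_eq]
  have hle := tsum_of_norm_bounded hsc.hasSum hb
  refine hle.trans ?_
  have h5 : ∑' v, ((fun x : ℤ × ℤ => h x.1 * uu A B x.2) ∘ i) v ≤
      ∑' x : ℤ × ℤ, h x.1 * uu A B x.2 :=
    tsum_comp_le_tsum_of_inj hss (fun x => mul_nonneg (hnn _) (uu_nonneg hA0 hB0 _)) hinj
  refine h5.trans ?_
  rw [htt]
  have hKA : (z.im ^ K)⁻¹ = A := by rw [hA, hk2]
  have hKB : (z.im ^ (K - 2))⁻¹ = B := by rw [hB, hk2]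
  rw [hKA, hKB]
  have h1 : π < 3.15 := Real.pi_lt_d2
  have h2 : π ^ 2 ≤ 10 := by nlinarith [Real.pi_pos]
  have h3 : 0 ≤ π ^ 2 := by positivity
  have h6 : (π ^ 2 / 3) * (2 * A) ≤ 12 * A := by nlinarith
  have h7 : (π ^ 2 / 3) * (B * (π ^ 2 / 3)) ≤ 12 * B := by
    have : (π ^ 2 / 3) * (π ^ 2 / 3) ≤ 12 := by nlinarith
    nlinarith
  nlinarith

/-- invariance of `y^{K/2} |f|` -/
lemma inv_im_pow (k : ℕ) (P : CuspForm 𝒮ℒ ((2 * k : ℕ) : ℤ)) (γ : SL(2, ℤ)) (z : ℍ) :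
    (γ • z).im ^ k * ‖P (γ • z)‖ = z.im ^ k * ‖P z‖ := by
  have h1 : (P : ℍ → ℂ) ∣[((2 * k : ℕ) : ℤ)] (γ : GL (Fin 2) ℝ) = P :=
    SlashInvariantForm.slash_action_eqn P _ ⟨γ, rfl⟩
  have h2 := congrFun h1 z
  rw [← SL_slash, SL_slash_apply, zpow_neg, zpow_natCast] at h2
  have h3 : (γ • z).im = z.im / Complex.normSq (denom γ z) := ModularGroup.im_smul_eq_div_normSq γ z
  have h4 : denom γ z ≠ 0 := denom_ne_zero γ z
  rw [h3, ← h2, norm_mul, norm_inv, norm_pow, div_pow, Complex.normSq_eq_norm_sq, pow_mul]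
  have h5 : ‖denom γ z‖ ≠ 0 := norm_ne_zero_iff.2 h4
  field_simp

lemma norm_eF (m : ℕ) (z : ℍ) : ‖eF m z‖ = Real.exp (-(2 * π * m * z.im)) := by
  unfold eF
  rw [Complex.norm_exp]
  congr 1
  simp

/-- `y^k e^{-2πmy} ≤ (2k/(4πem))^k` -/
lemma pow_mul_exp_le (k m : ℕ) (hk : 1 ≤ k) (hm : 1 ≤ m) (y : ℝ) (hy : 0 < y) :
    y ^ k * Real.exp (-(2 * π * m * y)) ≤ (((2 * k : ℕ) : ℝ) / (4 * π * Real.exp 1 * m)) ^ k := by
  have hk0 : (0 : ℝ) < k := by exact_mod_cast hk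
  have hm0 : (0 : ℝ) < m := by exact_mod_cast hm
  have h1 : y ^ k * Real.exp (-(2 * π * m * y)) = (y * Real.exp (-(2 * π * m * y / k))) ^ k := by
    rw [mul_pow, ← Real.exp_nat_mul]
    congr 2
    field_simp
  rw [h1]
  refine pow_le_pow_left₀ (by positivity) ?_ _
  have h2 := Real.add_one_le_exp (2 * π * m * y / k - 1)
  rw [sub_add_cancel, Real.exp_sub] at h2
  rw [Real.exp_neg, ← div_eq_mul_inv, div_le_div_iff₀ (Real.exp_pos _) (by positivity)]
  have h3 : 2 * π * m * y / k * Real.exp 1 ≤ Real.exp (2 * π * m * y / k) := by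
    rwa [le_div_iff₀ (Real.exp_pos 1)] at h2
  calc y * (4 * π * Real.exp 1 * m) = (2 * k) * (2 * π * m * y / k * Real.exp 1) := by
        field_simp
        ring
    _ ≤ (2 * k) * Real.exp (2 * π * m * y / k) := by gcongr
    _ = ((2 * k : ℕ) : ℝ) * Real.exp (2 * π * m * y / k) := by push_cast; ring

/-- U3b: the sup bound. -/
theorem sup_bound (K m : ℕ) (hKe : Even K) (hm : 1 ≤ m) (hK : 100 * m ≤ K)
    (P : CuspForm 𝒮ℒ (K : ℤ))
    (hP : ∀ z : ℍ, HasSum (fun v : gammaSet 1 1 0 => pterm K m v z) (P z)) (z : ℍ) :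
    z.im ^ (K / 2) * ‖P z - 2 * eF m z‖ ≤ 5 * (K / (4 * π * Real.exp 1 * m)) ^ (K / 2) := by
  have htail := tail_bound K m hKe (by omega) P hP
  obtain ⟨k, hk⟩ := hKe
  obtain rfl : K = 2 * k := by omega
  have hk2 : 2 * k / 2 = k := by omega
  have hk50 : 50 ≤ k := by omega
  rw [hk2]
  set Q : ℝ := (((2 * k : ℕ) : ℝ) / (4 * π * Real.exp 1 * m)) ^ k with hQ
  have hm0 : (0 : ℝ) < m := by exact_mod_cast hm
  -- `Q` is large
  have hQbase : (2.4 : ℝ) ≤ ((2 * k : ℕ) : ℝ) / (4 * π * Real.exp 1 * m) := by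
    rw [le_div_iff₀ (by positivity)]
    have h1 : π < 3.15 := Real.pi_lt_d2
    have h2 : Real.exp 1 < 2.7182818286 := Real.exp_one_lt_d9
    have h3 : (100 : ℝ) * m ≤ ((2 * k : ℕ) : ℝ) := by exact_mod_cast hK
    have h4 : π * Real.exp 1 ≤ 8.6 := by
      have := Real.pi_pos
      have := Real.exp_pos 1
      nlinarith
    nlinarith
  have hQ1 : 24 * (1.2 : ℝ) ^ k ≤ Q := by
    have h1 : (2.4 : ℝ) ^ k ≤ Q := pow_le_pow_left₀ (by norm_num) hQbase k
    have h2 : (2.4 : ℝ) ^ k = 2 ^ k * 1.2 ^ k := by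
      rw [← mul_pow]
      norm_num
    have h3 : (24 : ℝ) ≤ 2 ^ k := by
      calc (24 : ℝ) ≤ 2 ^ 50 := by norm_num
        _ ≤ 2 ^ k := pow_le_pow_right₀ (by norm_num) hk50
    calc 24 * (1.2 : ℝ) ^ k ≤ 2 ^ k * 1.2 ^ k := by gcongr
      _ ≤ Q := h2 ▸ h1
  have hexp : ∀ w : ℍ, w.im ^ k * (2 * ‖eF m w‖) ≤ 2 * Q := by
    intro w
    rw [norm_eF]
    have := pow_mul_exp_le k m (by omega) hm w.im w.im_pos
    linarith
  -- the bound for `P` itself
  have hPbound : z.im ^ k * ‖P z‖ ≤ 3 * Q := by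
    obtain ⟨g, hg⟩ := ModularGroup.exists_smul_mem_fd z
    rw [← inv_im_pow k P g z]
    set w := g • z with hw
    have hw1 : 3 ≤ 4 * w.im ^ 2 := ModularGroup.three_le_four_mul_im_sq_of_mem_fd hg
    have hw0 : 0 < w.im := w.im_pos
    have h1 := htail w
    have h2 : ‖P w‖ ≤ 2 * ‖eF m w‖ + 12 * ((w.im ^ (2 * k))⁻¹ + (w.im ^ (2 * k - 2))⁻¹) := by
      calc ‖P w‖ = ‖(P w - 2 * eF m w) + 2 * eF m w‖ := by ring_nf
        _ ≤ ‖P w - 2 * eF m w‖ + ‖2 * eF m w‖ := norm_add_le _ _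
        _ ≤ 12 * ((w.im ^ (2 * k))⁻¹ + (w.im ^ (2 * k - 2))⁻¹) + 2 * ‖eF m w‖ := by
          rw [norm_mul]
          simp only [Complex.norm_ofNat]
          linarith
        _ = _ := by ring
    -- the inverse of the height
    set b : ℝ := w.im⁻¹ with hb
    have hb0 : 0 < b := inv_pos.2 hw0
    have hb1 : b ≤ 1.2 := by
      rw [hb, inv_le_comm₀ hw0 (by norm_num)]
      nlinarith
    have h3 : w.im ^ k * (w.im ^ (2 * k))⁻¹ = b ^ k := by
      rw [hb, inv_pow, two_mul, pow_add]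
      field_simp
    have h4 : w.im ^ k * (w.im ^ (2 * k - 2))⁻¹ = b ^ (k - 2) := by
      rw [hb, inv_pow, show 2 * k - 2 = k + (k - 2) by omega, pow_add]
      field_simp
    have h5 : b ^ k ≤ 1.2 ^ k := pow_le_pow_left₀ hb0.le hb1 k
    have h6 : b ^ (k - 2) ≤ 1.2 ^ k := by
      calc b ^ (k - 2) ≤ 1.2 ^ (k - 2) := pow_le_pow_left₀ hb0.le hb1 _
        _ ≤ 1.2 ^ k := pow_le_pow_right₀ (by norm_num) (by omega)
    calc w.im ^ k * ‖P w‖
        ≤ w.im ^ k * (2 * ‖eF m w‖ + 12 * ((w.im ^ (2 * k))⁻¹ + (w.im ^ (2 * k - 2))⁻¹)) := by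
          gcongr
      _ = w.im ^ k * (2 * ‖eF m w‖) + 12 * (w.im ^ k * (w.im ^ (2 * k))⁻¹ +
            w.im ^ k * (w.im ^ (2 * k - 2))⁻¹) := by ring
      _ ≤ 2 * Q + 12 * (1.2 ^ k + 1.2 ^ k) := by
          rw [h3, h4]
          have := hexp w
          linarith
      _ ≤ 3 * Q := by linarith
  calc z.im ^ k * ‖P z - 2 * eF m z‖ ≤ z.im ^ k * (‖P z‖ + ‖2 * eF m z‖) := by
        gcongr
        exact norm_sub_le _ _
    _ = z.im ^ k * ‖P z‖ + z.im ^ k * (2 * ‖eF m z‖) := by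
        rw [norm_mul]
        simp only [Complex.norm_ofNat]
        ring
    _ ≤ 3 * Q + 2 * Q := add_le_add hPbound (hexp z)
    _ = 5 * Q := by ring

end Pool.Agent.TPU
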