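import Pool.Agent.TPU.Bess
import Pool.Agent.TPU.Tail
import Pool.Agent.Helper54.TP.Ints

/-! MP_78efad_nt: the dual integral of a Poincaré series, uniformly in the conductor. -/

set_option linter.all false

open UpperHalfPlane ModularForm EisensteinSeries MeasureTheory Filter Topology
open scoped MatrixGroups Real Nat

namespace Pool.Agent.TPU

open Pool.Agent.Helper54.TP

/-- the difference of the twisted form and its main term -/
noncomputable def dif {K : ℤ} {D : ℕ} (ψ : DirichletCharacter ℂ D) (m : ℕ) (P : CuspForm 𝒮ℒ K)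
    (w : ℝ) : ℂ :=
  twist ψ P (Complex.I * w) - 2 * ψ (m : ZMod D) * Real.exp (-(2 * π * m * w))

lemma twist_aesm {K : ℤ} {D : ℕ} (ψ : DirichletCharacter ℂ D) (f : CuspForm 𝒮ℒ K) :
    AEStronglyMeasurable (fun w : ℝ => twist ψ f (Complex.I * w))
      (volume.restrict (Set.Ioi (0 : ℝ))) := by
  refine aestronglyMeasurable_of_tendsto_ae atTop
    (f := fun (N : ℕ) (w : ℝ) => ∑ j ∈ Finset.range N, ψ (j : ZMod D) *
      (qExpansion 1 (f : ℍ → ℂ)).coeff j * Complex.exp (2 * π * Complex.I * j * (Complex.I * w)))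
    (fun N => Continuous.aestronglyMeasurable (by fun_prop)) ?_
  rw [ae_restrict_iff' measurableSet_Ioi]
  refine Filter.Eventually.of_forall fun w hw => ?_
  have hw' : (0 : ℝ) < w := hw
  set z : ℍ := ⟨Complex.I * w, by simpa using hw'⟩ with hz
  have h := ModularForm.hasSum_qExpansion f one_pos one_mem_strictPeriods_SL z
  have h1 : Summable fun j : ℕ => ψ (j : ZMod D) *
      (qExpansion 1 (f : ℍ → ℂ)).coeff j *
      Complex.exp (2 * π * Complex.I * j * (Complex.I * w)) := by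
    refine Summable.of_norm_bounded h.summable.norm fun j => ?_
    rw [mul_assoc, norm_mul]
    refine le_trans (mul_le_of_le_one_left (norm_nonneg _) (DirichletCharacter.norm_le_one ψ _))
      (le_of_eq ?_)
    rw [Function.Periodic.qParam, ← Complex.exp_nat_mul]
    congr 3
    rw [hz]
    push_cast
    ring
  exact h1.hasSum.tendsto_sum_nat

lemma bern (K : ℕ) (hKe : Even K) (hK : 1 ≤ K) (w : ℝ) (hw : 0 < w) :
    0 < w - w / K ∧ w ^ (K / 2) ≤ 2 * (w - w / K) ^ (K / 2) ∧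
      w ^ K ≤ 4 * (w - w / K) ^ K ∧ w ^ (K - 2) ≤ 4 * (w - w / K) ^ (K - 2) := by
  obtain ⟨k, hk⟩ := hKe
  have hk1 : 1 ≤ k := by omega
  have hK0 : (2 : ℝ) ≤ K := by exact_mod_cast (by omega : 2 ≤ K)
  have h1 : w - w / K = w * (1 - 1 / K) := by ring
  have h2 : (1 : ℝ) / K ≤ 1 / 2 := one_div_le_one_div_of_le (by norm_num) hK0
  have h3 : (0 : ℝ) < 1 - 1 / K := by linarith
  have h4 : (1 : ℝ) / 2 ≤ (1 - 1 / K) ^ k := by
    have h5 := one_add_mul_le_pow (a := -(1 / (K : ℝ))) (by linarith) k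
    have h6 : (1 : ℝ) + (k : ℝ) * (-(1 / (K : ℝ))) = 1 / 2 := by
      have : (K : ℝ) = 2 * k := by
        rw [hk]
        push_cast
        ring
      rw [this]
      have : (k : ℝ) ≠ 0 := by positivity
      field_simp
      ring
    rw [h6] at h5
    simpa [sub_eq_add_neg] using h5
  have h7 : (1 : ℝ) / 4 ≤ (1 - 1 / K) ^ K := by
    rw [hk, pow_add]
    have : (1 : ℝ) / 4 = 1 / 2 * (1 / 2) := by norm_num
    rw [this]
    have hKk : ((k + k : ℕ) : ℝ) = K := by rw [hk]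
    rw [hKk]
    exact mul_le_mul h4 h4 (by norm_num) (by positivity)
  have h8 : (1 : ℝ) / 4 ≤ (1 - 1 / K) ^ (K - 2) := by
    refine h7.trans (pow_le_pow_of_le_one h3.le ?_ (by omega))
    have : (0 : ℝ) ≤ 1 / K := by positivity
    linarith
  have hK2 : K / 2 = k := by omega
  refine ⟨by rw [h1]; positivity, ?_, ?_, ?_⟩
  · rw [h1, mul_pow, hK2]
    have := pow_pos hw k
    nlinarith
  · rw [h1, mul_pow]
    have := pow_pos hw K
    nlinarith
  · rw [h1, mul_pow]
    have := pow_pos hw (K - 2)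
    nlinarith

lemma dif_small {D : ℕ} (ψ : DirichletCharacter ℂ D) (K m : ℕ) (hKe : Even K) (hm : 1 ≤ m)
    (hK : 100 * m ≤ K) (P : CuspForm 𝒮ℒ (K : ℤ))
    (hP : ∀ z : ℍ, HasSum (fun v : gammaSet 1 1 0 => pterm K m v z) (P z)) (w : ℝ) (hw : 0 < w) :
    ‖dif ψ m P w‖ ≤ 10 * (K / (4 * π * Real.exp 1 * m)) ^ (K / 2) * (w ^ (K / 2))⁻¹ *
      (√(4 * π * (w / K)))⁻¹ := by
  obtain ⟨h1, h2, h3, h4⟩ := bern K hKe (by omega) w hw
  have hKp : (0 : ℝ) < K := by exact_mod_cast (by omega : 0 < K)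
  set H : ℝ := (K / (4 * π * Real.exp 1 * m)) ^ (K / 2) with hH
  have hmp : (0 : ℝ) < m := by exact_mod_cast hm
  have hH0 : 0 < H := by positivity
  have h5 := twist_bound ψ P m hm 2 (w - w / K) w (5 * H * ((w - w / K) ^ (K / 2))⁻¹) h1
    (by have : 0 < w / K := by positivity
        linarith)
    (by
      intro z hz
      have h6 := sup_bound K m hKe hm hK P hP z
      rw [hz] at h6
      rw [← div_eq_mul_inv, le_div_iff₀ (by positivity), mul_comm]
      exact h6)
  unfold dif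
  refine h5.trans ?_
  have h7 : w - (w - w / K) = w / K := by ring
  rw [h7]
  refine mul_le_mul_of_nonneg_right ?_ (by positivity)
  have h8 : ((w - w / K) ^ (K / 2))⁻¹ ≤ 2 * (w ^ (K / 2))⁻¹ := by
    rw [← div_eq_mul_inv, le_div_iff₀ (by positivity), inv_mul_le_iff₀ (by positivity)]
    linarith
  calc 5 * H * ((w - w / K) ^ (K / 2))⁻¹ ≤ 5 * H * (2 * (w ^ (K / 2))⁻¹) :=
        mul_le_mul_of_nonneg_left h8 (by positivity)
    _ = _ := by ring

lemma dif_large {D : ℕ} (ψ : DirichletCharacter ℂ D) (K m : ℕ) (hKe : Even K) (hm : 1 ≤ m)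
    (hK : 4 ≤ K) (P : CuspForm 𝒮ℒ (K : ℤ))
    (hP : ∀ z : ℍ, HasSum (fun v : gammaSet 1 1 0 => pterm K m v z) (P z)) (w : ℝ) (hw : 0 < w) :
    ‖dif ψ m P w‖ ≤ 48 * ((w ^ K)⁻¹ + (w ^ (K - 2))⁻¹) * (√(4 * π * (w / K)))⁻¹ := by
  obtain ⟨h1, h2, h3, h4⟩ := bern K hKe (by omega) w hw
  have hKp : (0 : ℝ) < K := by exact_mod_cast (by omega : 0 < K)
  have h5 := twist_bound ψ P m hm 2 (w - w / K) w
    (12 * (((w - w / K) ^ K)⁻¹ + ((w - w / K) ^ (K - 2))⁻¹)) h1
    (by have : 0 < w / K := by positivity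
        linarith)
    (by
      intro z hz
      have h6 := tail_bound K m hKe hK P hP z
      rw [hz] at h6
      exact h6)
  unfold dif
  refine h5.trans ?_
  have h7 : w - (w - w / K) = w / K := by ring
  rw [h7]
  refine mul_le_mul_of_nonneg_right ?_ (by positivity)
  have h8 : ((w - w / K) ^ K)⁻¹ ≤ 4 * (w ^ K)⁻¹ := by
    rw [← div_eq_mul_inv, le_div_iff₀ (by positivity), inv_mul_le_iff₀ (by positivity)]
    linarith
  have h9 : ((w - w / K) ^ (K - 2))⁻¹ ≤ 4 * (w ^ (K - 2))⁻¹ := by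
    rw [← div_eq_mul_inv, le_div_iff₀ (by positivity), inv_mul_le_iff₀ (by positivity)]
    linarith
  linarith

end Pool.Agent.TPU
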