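import Mathlib

/-! MP_78efad_nt: the size of the main term (Stirling). -/

set_option linter.all false

open scoped Real Nat

namespace Pool.Agent.TPU

lemma fact_add_ge (k r : ℕ) : (k ! : ℝ) * (k : ℝ) ^ r ≤ ((k + r)! : ℝ) := by
  induction r with
  | zero => simp
  | succ r ih =>
    rw [← add_assoc, Nat.factorial_succ, pow_succ]
    push_cast
    have h1 : (0 : ℝ) ≤ (k ! : ℝ) * (k : ℝ) ^ r := by positivity
    have h2 : (0 : ℝ) ≤ ((k + r)! : ℝ) := by positivity
    have h3 : (0 : ℝ) ≤ (k : ℝ) := Nat.cast_nonneg k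
    have h4 : (0 : ℝ) ≤ (r : ℝ) := Nat.cast_nonneg r
    calc (k ! : ℝ) * ((k : ℝ) ^ r * (k : ℝ)) = (k : ℝ) * ((k ! : ℝ) * (k : ℝ) ^ r) := by ring
      _ ≤ (k : ℝ) * ((k + r)! : ℝ) := mul_le_mul_of_nonneg_left ih h3
      _ ≤ ((k : ℝ) + r + 1) * ((k + r)! : ℝ) := by nlinarith

theorem main_size (K m r : ℕ) (hKe : Even K) (hm : 1 ≤ m) (hK : 1 ≤ K) :
    70 * √m * ((K : ℝ) / (4 * π * Real.exp 1 * m)) ^ (K / 2) * (100 * m / K) ^ r ≤
      250 * (m * √m / √K) * (36 * m / K) ^ (2 * r) *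
        (((K / 2 + r)! : ℝ) / (2 * π * m) ^ (K / 2 + r + 1)) := by
  obtain ⟨k, hk⟩ := hKe
  have hK2 : K / 2 = k := by omega
  rw [hK2]
  have hk1 : 1 ≤ k := by omega
  have hkp : (0 : ℝ) < k := by exact_mod_cast hk1
  have hmp : (0 : ℝ) < m := by exact_mod_cast hm
  have hpi := Real.pi_pos
  have hKk : (K : ℝ) = 2 * k := by
    rw [hk]
    push_cast
    ring
  have he0 := Real.exp_pos 1
  set H : ℝ := ((K : ℝ) / (4 * π * Real.exp 1 * m)) ^ k with hH
  have hH0 : 0 < H := by positivity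
  -- Stirling
  have hst : √(2 * π * k) * ((k : ℝ) / Real.exp 1) ^ k ≤ (k ! : ℝ) := Stirling.le_factorial_stirling k
  have hst2 := fact_add_ge k r
  have h1 : √(π * K) * ((k : ℝ) / Real.exp 1) ^ k * (k : ℝ) ^ r ≤ ((k + r)! : ℝ) := by
    refine le_trans (mul_le_mul_of_nonneg_right ?_ (by positivity)) hst2
    refine le_trans (le_of_eq ?_) hst
    rw [hKk]
    congr 2
    ring
  -- the main term
  have h2 : √(π * K) / (2 * π * m) * (H * (K / (4 * π * m)) ^ r) ≤
      ((k + r)! : ℝ) / (2 * π * m) ^ (k + r + 1) := by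
    rw [le_div_iff₀ (by positivity)]
    refine le_trans (le_of_eq ?_) h1
    rw [hH, hKk, pow_succ (2 * π * (m : ℝ)), pow_add (2 * π * (m : ℝ))]
    have e1 : (2 * (k : ℝ) / (4 * π * Real.exp 1 * m)) ^ k * (2 * π * m) ^ k =
        ((k : ℝ) / Real.exp 1) ^ k := by
      rw [← mul_pow]
      congr 1
      field_simp
      ring
    have e2 : (2 * (k : ℝ) / (4 * π * m)) ^ r * (2 * π * m) ^ r = (k : ℝ) ^ r := by
      rw [← mul_pow]
      congr 1
      field_simp
      ring
    rw [← e1, ← e2]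
    field_simp
  have hsm : 0 < √(m : ℝ) := Real.sqrt_pos.2 hmp
  have hKp : (0 : ℝ) < K := by
    rw [hKk]
    positivity
  have hsK : 0 < √(K : ℝ) := Real.sqrt_pos.2 hKp
  have h3 : 70 * √(m : ℝ) * H * (100 * m / K) ^ r ≤
      250 * (m * √m / √K) * (36 * m / K) ^ (2 * r) *
        (√(π * K) / (2 * π * m) * (H * (K / (4 * π * m)) ^ r)) := by
    have e3 : 250 * (m * √m / √K) * (36 * m / K) ^ (2 * r) *
        (√(π * K) / (2 * π * m) * (H * (K / (4 * π * m)) ^ r)) =
        (250 * √π / (2 * π)) * √m * H * ((36 * m / K) ^ 2 * (K / (4 * π * m))) ^ r := by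
      rw [Real.sqrt_mul hpi.le, pow_mul, mul_pow ((36 * (m : ℝ) / K) ^ 2)]
      field_simp
    rw [e3]
    have e4 : (36 * m / K : ℝ) ^ 2 * (K / (4 * π * m)) = 324 / π * (m / K) := by
      field_simp
      ring
    rw [e4]
    have h5 : (100 : ℝ) ≤ 324 / π := by
      rw [le_div_iff₀ hpi]
      have := Real.pi_lt_d2
      linarith
    have h6 : (70 : ℝ) ≤ 250 * √π / (2 * π) := by
      have hs : √π * √π = π := Real.mul_self_sqrt hpi.le
      have hs0 : 0 < √π := Real.sqrt_pos.2 hpi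
      have h7 : √π ≤ 1.775 := by
        rw [Real.sqrt_le_left (by norm_num)]
        have := Real.pi_lt_d2
        norm_num
        linarith
      rw [le_div_iff₀ (by positivity)]
      nlinarith
    have h8 : (100 * m / K : ℝ) ^ r ≤ (324 / π * (m / K)) ^ r := by
      apply pow_le_pow_left₀ (by positivity)
      rw [mul_div_assoc]
      exact mul_le_mul_of_nonneg_right h5 (by positivity)
    calc 70 * √(m : ℝ) * H * (100 * m / K) ^ r
        = 70 * (√(m : ℝ) * H * (100 * m / K) ^ r) := by ring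
      _ ≤ (250 * √π / (2 * π)) * (√(m : ℝ) * H * (324 / π * (m / K)) ^ r) := by
          apply mul_le_mul h6 _ (by positivity) (by positivity)
          exact mul_le_mul_of_nonneg_left h8 (by positivity)
      _ = _ := by ring
  exact h3.trans (mul_le_mul_of_nonneg_left h2 (by positivity))

end Pool.Agent.TPU
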