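import Pool.Agent.TPU.Int59
import Pool.Agent.TPU.Size59
import Pool.Agent.TPU.Dual
import Pool.Agent.TWP.VandA59

/-! MP_78efad_nt: linear independence uniformly in the conductor, the general statement. -/

set_option linter.all false

open UpperHalfPlane ModularForm EisensteinSeries MeasureTheory
open scoped MatrixGroups Real Nat

namespace Pool.Agent.TPU

open Pool.Agent.Helper54.TP

lemma geom_sum_le {n : ℕ} (q : ℝ) (hq0 : 0 ≤ q) (hq : q ≤ 0.1296) (r : ℕ) (ρ : Fin n → ℕ)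
    (hρ : Function.Injective ρ) (hr : ∀ i, r ≤ ρ i) : ∑ i, q ^ (ρ i) ≤ 1.2 * q ^ r := by
  classical
  have h1 : ∀ i, q ^ (ρ i) = q ^ r * q ^ (ρ i - r) := fun i => by
    rw [← pow_add]
    congr 1
    have := hr i
    omega
  have hinj : Function.Injective (fun i => ρ i - r) := by
    intro a b hab
    apply hρ
    have := hr a
    have := hr b
    simp only at hab
    omega
  have hs : Summable (fun k : ℕ => q ^ k) := summable_geometric_of_lt_one hq0 (by linarith)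
  have h2 : ∑ i, q ^ (ρ i - r) ≤ 1.2 := by
    have h3 : ∑ i, q ^ (ρ i - r) = ∑ k ∈ Finset.univ.image (fun i => ρ i - r), q ^ k :=
      (Finset.sum_image (f := fun k => q ^ k) (g := fun i => ρ i - r)
        (s := Finset.univ) (fun a _ b _ h => hinj h)).symm
    rw [h3]
    refine (hs.sum_le_tsum _ (fun k _ => pow_nonneg hq0 k)).trans ?_
    rw [tsum_geometric_of_lt_one hq0 (by linarith), inv_le_comm₀ (by linarith) (by norm_num)]
    linarith
  calc ∑ i, q ^ (ρ i) = q ^ r * ∑ i, q ^ (ρ i - r) := by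
        rw [Finset.mul_sum]
        exact Finset.sum_congr rfl fun i _ => h1 i
    _ ≤ q ^ r * 1.2 := mul_le_mul_of_nonneg_left h2 (pow_nonneg hq0 r)
    _ = _ := by ring

/-- the weight inequality -/
lemma weight_le (x M K : ℝ) (hx : 0 < x) (hxM : x ≤ M) (hK : 0 < K) (s s' ρ : ℕ)
    (h : s' ≤ s + 2 * ρ) :
    M ^ s' * x ^ s * (36 * x / K) ^ (2 * ρ) ≤ (36 * M / K) ^ (2 * ρ) * (M ^ s * x ^ s') := by
  obtain ⟨δ, hδ⟩ := Nat.exists_eq_add_of_le h
  have hM : 0 < M := lt_of_lt_of_le hx hxM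
  have e1 : M ^ s' * x ^ s * (36 * x / K) ^ (2 * ρ) =
      (36 / K) ^ (2 * ρ) * (M ^ s' * x ^ s') * x ^ δ := by
    have : x ^ s * x ^ (2 * ρ) = x ^ s' * x ^ δ := by rw [← pow_add, ← pow_add, hδ]
    rw [show (36 * x / K : ℝ) = 36 / K * x by ring, mul_pow]
    calc M ^ s' * x ^ s * ((36 / K) ^ (2 * ρ) * x ^ (2 * ρ))
        = (36 / K) ^ (2 * ρ) * M ^ s' * (x ^ s * x ^ (2 * ρ)) := by ring
      _ = _ := by rw [this]; ring
  have e2 : (36 * M / K) ^ (2 * ρ) * (M ^ s * x ^ s') =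
      (36 / K) ^ (2 * ρ) * (M ^ s' * x ^ s') * M ^ δ := by
    have : M ^ s * M ^ (2 * ρ) = M ^ s' * M ^ δ := by rw [← pow_add, ← pow_add, hδ]
    rw [show (36 * M / K : ℝ) = 36 / K * M by ring, mul_pow]
    calc (36 / K) ^ (2 * ρ) * M ^ (2 * ρ) * (M ^ s * x ^ s')
        = (36 / K) ^ (2 * ρ) * x ^ s' * (M ^ s * M ^ (2 * ρ)) := by ring
      _ = _ := by rw [this]; ring
  rw [e1, e2]
  exact mul_le_mul_of_nonneg_left (pow_le_pow_left₀ hx.le hxM δ) (by positivity)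

theorem main_uniform {D : ℕ} (hD : 1 ≤ D) (χ : DirichletCharacter ℂ D) (hχ : χ.IsPrimitive)
    (K n M r : ℕ) (hKe : Even K) (hK : 100 * M ≤ K) (x : Fin n → ℕ) (hx : Function.Injective x)
    (hx1 : ∀ j, 1 ≤ x j) (hxM : ∀ j, x j ≤ M) (hxD : ∀ j, (x j).Coprime D)
    (ℓ : Fin n → ℕ) (hℓ : StrictMono ℓ) (h3 : ∀ i, 3 ≤ ℓ i) (h4 : ∀ i, 2 * ℓ i + 4 + 2 * r ≤ K)
    (hcond : 150 * (∑ j, (x j : ℝ) * ∏ k ∈ Finset.univ.erase j,
      (((x j : ℝ) + x k) / |(x j : ℝ) - x k|)) * √M * (36 * M / K) ^ (2 * r) < √K) :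
    LinearIndependent ℂ
      (fun i : Fin n => (twistedPeriod (ℓ i) χ : CuspForm 𝒮ℒ (K : ℤ) → ℂ)) := by
  classical
  rw [Fintype.linearIndependent_iff]
  intro c hc
  by_contra hne
  push Not at hne
  obtain ⟨i0, hi0⟩ := hne
  have hM1 : 1 ≤ M := (hx1 i0).trans (hxM i0)
  have hMp : (0 : ℝ) < M := by exact_mod_cast hM1
  have hK1 : 1 ≤ K := by omega
  have hKp : (0 : ℝ) < K := by exact_mod_cast hK1
  have hKM : (100 : ℝ) * M ≤ K := by exact_mod_cast hK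
  have hsK : 0 < √(K : ℝ) := Real.sqrt_pos.2 hKp
  have hpi := Real.pi_pos
  have hKK : K = K / 2 + K / 2 := by
    obtain ⟨k, hk⟩ := hKe
    omega
  have hxp : ∀ j, (0 : ℝ) < x j := fun j => by exact_mod_cast hx1 j
  have hxMr : ∀ j, (x j : ℝ) ≤ M := fun j => by exact_mod_cast hxM j
  -- the exponents
  set ρ : Fin n → ℕ := fun i => K / 2 - 2 - ℓ i with hρ
  set s : Fin n → ℕ := fun i => K / 2 + ρ i + 1 with hs
  have hρr : ∀ i, r ≤ ρ i := fun i => by
    have := h4 i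
    simp only [hρ]
    omega
  have hρinj : Function.Injective ρ := by
    intro a b hab
    apply hℓ.injective
    have := h4 a
    have := h4 b
    simp only [hρ] at hab
    omega
  have hsinj : Function.Injective s := by
    intro a b hab
    apply hρinj
    simp only [hs] at hab
    omega
  have hexp : ∀ i, K - 2 - ℓ i = K / 2 + ρ i := fun i => by
    have := h4 i
    simp only [hρ]
    omega
  -- the constants of the functional equation
  choose γ hγ0 hγ using fun i : Fin n => period_dual hD χ hχ K (ℓ i) (by have := h4 i; omega)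
  -- the coefficients
  set b : Fin n → ℂ := fun i => c i * γ i * ((K / 2 + ρ i)! : ℂ) / (2 * π) ^ (s i) with hb
  have hbn : ∀ i, ‖b i‖ = ‖c i‖ * ‖γ i‖ * ((K / 2 + ρ i)! : ℝ) / (2 * π) ^ (s i) := by
    intro i
    simp only [hb]
    rw [norm_div, norm_mul, norm_mul, Complex.norm_natCast, norm_pow, norm_mul,
      Complex.norm_real, Complex.norm_ofNat, Real.norm_of_nonneg hpi.le]
  have hbi0 : b i0 ≠ 0 := by
    simp only [hb]
    have h2 : (2 * (π : ℂ)) ≠ 0 := by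
      simp [Real.pi_ne_zero]
    have h3' : (((K / 2 + ρ i0)! : ℕ) : ℂ) ≠ 0 := by
      exact_mod_cast Nat.factorial_ne_zero _
    exact div_ne_zero (mul_ne_zero (mul_ne_zero hi0 (hγ0 i0)) h3') (pow_ne_zero _ h2)
  -- the characters
  have hnorm : ∀ j, ‖χ⁻¹ ((x j : ℕ) : ZMod D)‖ = 1 := fun j => by
    obtain ⟨u, hu⟩ := (ZMod.isUnit_iff_coprime (x j) D).mpr (hxD j)
    rw [← hu]
    exact DirichletCharacter.unit_norm_eq_one χ⁻¹ u
  -- the values
  set ε : Fin n → Fin n → ℝ := fun i j => 250 * (x j * √(x j) / √K) * (36 * x j / K) ^ (2 * ρ i)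
    with hε
  have hval : ∀ j, ‖∑ i, b i * (((x j : ℝ)⁻¹ : ℝ) : ℂ) ^ (s i)‖ ≤
      1 / 2 * ∑ i, ‖b i‖ * ((x j : ℝ) ^ (s i))⁻¹ * ε i j := by
    intro j
    obtain ⟨P, hP⟩ := exists_poincare K (by have := h4 i0; have := h3 i0; omega) (x j) (hx1 j)
    have h0 : ∑ i, c i * twistedPeriod (ℓ i) χ P = 0 := by
      have := congrFun hc P
      simpa using this
    set J : Fin n → ℂ := fun i => ∫ w in Set.Ioi (0 : ℝ), twist χ⁻¹ P (Complex.I * w) *
      (w : ℂ) ^ (K / 2 + ρ i) with hJ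
    set G : Fin n → ℂ := fun i => ((K / 2 + ρ i)! : ℂ) / (2 * π * (x j : ℂ)) ^ (K / 2 + ρ i + 1)
      with hG
    have h1 : ∑ i, c i * γ i * J i = 0 := by
      rw [← h0]
      refine Finset.sum_congr rfl fun i _ => ?_
      rw [hγ i P, hexp i, hJ]
      ring
    have hG2 : ∀ i, c i * γ i * G i = b i * (((x j : ℝ)⁻¹ : ℝ) : ℂ) ^ (s i) := by
      intro i
      simp only [hG, hb, hs]
      push_cast
      rw [mul_pow (2 * (π : ℂ)), inv_pow]
      field_simp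
    have h2 : 2 * χ⁻¹ ((x j : ℕ) : ZMod D) * ∑ i, b i * (((x j : ℝ)⁻¹ : ℝ) : ℂ) ^ (s i) =
        -∑ i, c i * γ i * (J i - 2 * χ⁻¹ ((x j : ℕ) : ZMod D) * G i) := by
      simp only [mul_sub, Finset.sum_sub_distrib]
      rw [h1, zero_sub, neg_neg, Finset.mul_sum]
      refine Finset.sum_congr rfl fun i _ => ?_
      rw [← hG2 i]
      ring
    have h5 : ‖2 * χ⁻¹ ((x j : ℕ) : ZMod D) * ∑ i, b i * (((x j : ℝ)⁻¹ : ℝ) : ℂ) ^ (s i)‖ ≤
        ∑ i, ‖b i‖ * ((x j : ℝ) ^ (s i))⁻¹ * ε i j := by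
      rw [h2, norm_neg]
      refine (norm_sum_le _ _).trans (Finset.sum_le_sum fun i _ => ?_)
      have h6 := dual_node χ⁻¹ K (x j) (ρ i) hKe (hx1 j)
        ((Nat.mul_le_mul_left 100 (hxM j)).trans hK)
        (by have := h4 i; have := h3 i; simp only [hρ]; omega) P hP
      have h7 := main_size K (x j) (ρ i) hKe (hx1 j) hK1
      rw [norm_mul, norm_mul]
      calc ‖c i‖ * ‖γ i‖ * ‖J i - 2 * χ⁻¹ ((x j : ℕ) : ZMod D) * G i‖
          ≤ ‖c i‖ * ‖γ i‖ * (ε i j *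
            (((K / 2 + ρ i)! : ℝ) / (2 * π * x j) ^ (K / 2 + ρ i + 1))) := by
            refine mul_le_mul_of_nonneg_left ?_ (by positivity)
            exact h6.trans h7
        _ = _ := by
            rw [hbn i]
            simp only [hs]
            rw [mul_pow (2 * π) (x j : ℝ)]
            have := (hxp j).ne'
            field_simp
    rw [norm_mul, norm_mul, hnorm j, mul_one, Complex.norm_ofNat] at h5
    linarith
  -- the products
  set κ : Fin n → ℝ := fun j => ∏ k ∈ Finset.univ.erase j,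
      (((x j : ℝ) + x k) / |(x j : ℝ) - x k|) with hκ
  have hκ0 : ∀ j, 0 ≤ κ j := fun j => Finset.prod_nonneg fun k _ => by positivity
  have hκ2 : ∀ j, ∏ k ∈ Finset.univ.erase j, (((x j : ℝ)⁻¹ + (x k : ℝ)⁻¹) /
      |(x j : ℝ)⁻¹ - (x k : ℝ)⁻¹|) = κ j := by
    intro j
    simp only [hκ]
    refine Finset.prod_congr rfl fun k hk => ?_
    have hj := hxp j
    have hk' := hxp k
    have e1 : (x j : ℝ)⁻¹ + (x k : ℝ)⁻¹ = ((x j : ℝ) + x k) / (x j * x k) := by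
      field_simp
      ring
    have e2 : (x j : ℝ)⁻¹ - (x k : ℝ)⁻¹ = -((x j : ℝ) - x k) / (x j * x k) := by
      field_simp
      ring
    rw [e1, e2, abs_div, abs_neg, abs_of_pos (mul_pos hj hk')]
    rw [div_div_div_cancel_right₀ (mul_pos hj hk').ne']
  have hinvinj : Function.Injective (fun j => ((x j : ℝ))⁻¹) := by
    intro a b' hab
    have h1 : (x a : ℝ) = x b' := inv_injective hab
    exact hx (by exact_mod_cast h1)
  -- the maximal index
  obtain ⟨i1, _, hi1⟩ := Finset.exists_max_image Finset.univ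
    (fun i => ‖b i‖ * ((M : ℝ) ^ (s i))⁻¹) ⟨i0, Finset.mem_univ _⟩
  have hb1 : 0 < ‖b i1‖ := by
    have h1 := hi1 i0 (Finset.mem_univ _)
    have h2 : 0 < ‖b i0‖ * ((M : ℝ) ^ (s i0))⁻¹ := by
      have := norm_pos_iff.2 hbi0
      positivity
    by_contra h
    have h3' : ‖b i1‖ = 0 := le_antisymm (not_lt.1 h) (norm_nonneg _)
    rw [h3', zero_mul] at h1
    linarith
  have hcb := Pool.Agent.TWP.VandA.coeff_bound s hsinj (fun j => ((x j : ℝ))⁻¹)
    (fun j => inv_pos.mpr (hxp j)) hinvinj b i1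
  set q : ℝ := (36 * M / K) ^ 2 with hq
  have hq0 : 0 ≤ q := by positivity
  have hq1 : q ≤ 0.1296 := by
    have h1 : 36 * (M : ℝ) / K ≤ 0.36 := by
      rw [div_le_iff₀ hKp]
      linarith
    have h2 : 0 ≤ 36 * (M : ℝ) / K := by positivity
    rw [hq]
    nlinarith
  have hterm : ∀ j, ‖∑ k, b k * (((x j : ℝ)⁻¹ : ℝ) : ℂ) ^ (s k)‖ *
      ((((x j : ℝ)⁻¹) ^ (s i1))⁻¹ * ∏ k ∈ Finset.univ.erase j, (((x j : ℝ)⁻¹ + (x k : ℝ)⁻¹) /
      |(x j : ℝ)⁻¹ - (x k : ℝ)⁻¹|)) ≤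
      ‖b i1‖ * (150 / √K * √M * q ^ r) * (x j * κ j) := by
    intro j
    rw [hκ2 j, inv_pow, inv_inv]
    have hxj := hxp j
    have hsx : √(x j : ℝ) ≤ √(M : ℝ) := Real.sqrt_le_sqrt (hxMr j)
    -- the sum over `i`
    have h5 : (∑ i, ‖b i‖ * ((x j : ℝ) ^ (s i))⁻¹ * ε i j) * (x j : ℝ) ^ (s i1) ≤
        ‖b i1‖ * (250 * (x j * √(x j) / √K)) * ∑ i, q ^ (ρ i) := by
      rw [Finset.sum_mul, Finset.mul_sum]
      refine Finset.sum_le_sum fun i _ => ?_
      have h6 : ‖b i‖ ≤ ‖b i1‖ * ((M : ℝ) ^ (s i1))⁻¹ * (M : ℝ) ^ (s i) := by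
        have h7 := hi1 i (Finset.mem_univ _)
        rw [← div_eq_mul_inv, div_le_iff₀ (by positivity)] at h7
        exact h7
      have h8 := weight_le (x j) M K hxj (hxMr j) hKp (s i1) (s i) (ρ i)
        (by simp only [hs]; omega)
      calc ‖b i‖ * ((x j : ℝ) ^ (s i))⁻¹ * ε i j * (x j : ℝ) ^ (s i1)
          ≤ (‖b i1‖ * ((M : ℝ) ^ (s i1))⁻¹ * (M : ℝ) ^ (s i)) * ((x j : ℝ) ^ (s i))⁻¹ * ε i j *
            (x j : ℝ) ^ (s i1) := by
            have : 0 ≤ ε i j := by simp only [hε]; positivity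
            gcongr
        _ = ‖b i1‖ * (250 * (x j * √(x j) / √K)) * (((M : ℝ) ^ (s i1))⁻¹ *
            ((x j : ℝ) ^ (s i))⁻¹ * ((M : ℝ) ^ (s i) * (x j : ℝ) ^ (s i1) *
            (36 * x j / K) ^ (2 * ρ i))) := by
            simp only [hε]
            ring
        _ ≤ ‖b i1‖ * (250 * (x j * √(x j) / √K)) * (((M : ℝ) ^ (s i1))⁻¹ *
            ((x j : ℝ) ^ (s i))⁻¹ * ((36 * M / K) ^ (2 * ρ i) *
              ((M : ℝ) ^ (s i1) * (x j : ℝ) ^ (s i)))) := by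
            gcongr
        _ = ‖b i1‖ * (250 * (x j * √(x j) / √K)) * q ^ (ρ i) := by
            rw [hq, ← pow_mul]
            have h9 : (M : ℝ) ^ (s i1) ≠ 0 := by positivity
            have h10 : (x j : ℝ) ^ (s i) ≠ 0 := by positivity
            field_simp
    have h11 := geom_sum_le q hq0 hq1 r ρ hρinj hρr
    calc ‖∑ k, b k * (((x j : ℝ)⁻¹ : ℝ) : ℂ) ^ (s k)‖ * ((x j : ℝ) ^ (s i1) * κ j)
        ≤ (1 / 2 * ∑ i, ‖b i‖ * ((x j : ℝ) ^ (s i))⁻¹ * ε i j) * ((x j : ℝ) ^ (s i1) * κ j) :=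
          mul_le_mul_of_nonneg_right (hval j) (mul_nonneg (by positivity) (hκ0 j))
      _ = 1 / 2 * ((∑ i, ‖b i‖ * ((x j : ℝ) ^ (s i))⁻¹ * ε i j) * (x j : ℝ) ^ (s i1)) * κ j := by
          ring
      _ ≤ 1 / 2 * (‖b i1‖ * (250 * (x j * √(x j) / √K)) * ∑ i, q ^ (ρ i)) * κ j :=
          mul_le_mul_of_nonneg_right (mul_le_mul_of_nonneg_left h5 (by norm_num)) (hκ0 j)
      _ ≤ 1 / 2 * (‖b i1‖ * (250 * (x j * √M / √K)) * (1.2 * q ^ r)) * κ j := by
          refine mul_le_mul_of_nonneg_right (mul_le_mul_of_nonneg_left ?_ (by norm_num)) (hκ0 j)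
          have h12 : (x j : ℝ) * √(x j) / √K ≤ x j * √M / √K :=
            div_le_div_of_nonneg_right (mul_le_mul_of_nonneg_left hsx hxj.le) hsK.le
          have h13 : (0 : ℝ) ≤ ∑ i, q ^ (ρ i) := Finset.sum_nonneg fun i _ => pow_nonneg hq0 _
          exact mul_le_mul (mul_le_mul_of_nonneg_left
            (mul_le_mul_of_nonneg_left h12 (by norm_num)) hb1.le) h11 h13
            (mul_nonneg hb1.le (mul_nonneg (by norm_num) (by positivity)))
      _ = _ := by ring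
  have hfin : ‖b i1‖ ≤ ‖b i1‖ * (150 / √K * √M * q ^ r) * ∑ j, (x j : ℝ) * κ j := by
    refine hcb.trans ?_
    rw [Finset.mul_sum]
    exact Finset.sum_le_sum fun j _ => hterm j
  have hlt : 150 / √K * √M * q ^ r * ∑ j, (x j : ℝ) * κ j < 1 := by
    have e1 : 150 / √K * √M * q ^ r * ∑ j, (x j : ℝ) * κ j =
        (150 * (∑ j, (x j : ℝ) * κ j) * √M * (36 * M / K) ^ (2 * r)) / √K := by
      rw [hq, ← pow_mul]
      ring
    rw [e1, div_lt_one hsK]
    exact hcond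
  have : ‖b i1‖ * (150 / √K * √M * q ^ r) * ∑ j, (x j : ℝ) * κ j < ‖b i1‖ := by
    calc ‖b i1‖ * (150 / √K * √M * q ^ r) * ∑ j, (x j : ℝ) * κ j
        = ‖b i1‖ * (150 / √K * √M * q ^ r * ∑ j, (x j : ℝ) * κ j) := by ring
      _ < ‖b i1‖ * 1 := mul_lt_mul_of_pos_left hlt hb1
      _ = _ := mul_one _
  linarith

end Pool.Agent.TPU
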